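import Pool.Agent.H6.RCQ.Stmts1

/-!
# Project RCQ: module CO3
-/

set_option autoImplicit false

namespace Pool.Agent.H4.RCQ.CO3

open Pool.Agent.H39.RC Pool.Agent.H6.RCQ
open Classical

variable {V : Type} {G : SimpleGraph V} {O : Set V} {M : Finset V}

lemma cof_sub {M' : Finset V} (h : CoF G O M) (hs : M' ⊆ M) : CoF G O M' :=
  ⟨h.con, fun m hm => h.out m (hs hm), fun m hm => h.adj m (hs hm),
    fun m hm m' hm' => h.lk m (hs hm) m' (hs hm')⟩

lemma pol_of (h : CoF G O M) {g : V} (hg : g ∉ O) :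
    Pol G O {g} (M.filter (fun v => G.Adj g v)) where
  cP := h.con
  cQ := con_single g
  dis := Set.disjoint_singleton_right.2 hg
  oP := fun s hs => h.out s (Finset.mem_filter.1 hs).1
  oQ := fun s hs hsg => by
    have h1 := (Finset.mem_filter.1 hs).2
    rw [Set.mem_singleton_iff.1 hsg] at h1
    exact G.loopless.irrefl g h1
  aP := fun s hs => h.adj s (Finset.mem_filter.1 hs).1
  aQ := fun s hs => ⟨g, rfl, (Finset.mem_filter.1 hs).2⟩

lemma notXX {g v : V} (h1 : v ∉ O) (h2 : v ≠ g) (h3 : ¬ (v ∈ M ∧ G.Adj g v)) :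
    v ∉ XX O {g} (M.filter (fun v => G.Adj g v)) := by
  rintro ((hv | hv) | hv)
  · exact h1 hv
  · exact h2 hv
  · exact h3 (Finset.mem_filter.1 hv)

lemma reach (h : CoF G O M) {g r s : V} (hr : r ∈ M) (hrg : r ≠ g) (hn : ¬ G.Adj g r)
    (hs : s ∈ M) (hgs : G.Adj g s) :
    Lnk G (XX O {g} (M.filter (fun v => G.Adj g v))) r s ∨
      ∃ k ∈ M, G.Adj g k ∧ G.Adj r k ∧ G.Adj k s := by
  have hrX : r ∉ XX O {g} (M.filter (fun v => G.Adj g v)) :=
    notXX (h.out r hr) hrg (fun hh => hn hh.2)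
  have hrs : r ≠ s := by
    rintro rfl
    exact hn hgs
  rcases h.lk r hr s hs hrs with ha | ⟨x, hxO, hrx, hxs⟩
  · exact Or.inl (lnk_adj hrX ha)
  · by_cases hx : x ∈ M ∧ G.Adj g x
    · exact Or.inr ⟨x, hx.1, hx.2, hrx, hxs⟩
    · left
      refine lnk_cons hrX hrx (lnk_adj (notXX hxO ?_ hx) hxs)
      rintro rfl
      exact hn hrx.symm

lemma reach3 (hPE1 : PE1Stmt) (pg : PG G) (h : CoF G O M) {g r : V} (hg : g ∉ O)
    (h3 : (M.filter (fun v => G.Adj g v)).card = 3) (hr : r ∈ M) (hrg : r ≠ g)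
    (hn : ¬ G.Adj g r) : ∃ k ∈ M, ∃ s ∈ M, G.Adj g k ∧ G.Adj g s ∧ G.Adj r k ∧ G.Adj k s := by
  obtain ⟨a, b, c, hab, hac, hbc, hS⟩ := Finset.card_eq_three.1 h3
  have ma : a ∈ M.filter (fun v => G.Adj g v) := by rw [hS]; simp
  have mb : b ∈ M.filter (fun v => G.Adj g v) := by rw [hS]; simp
  have mc : c ∈ M.filter (fun v => G.Adj g v) := by rw [hS]; simp
  have ma' := Finset.mem_filter.1 ma
  have mb' := Finset.mem_filter.1 mb
  have mc' := Finset.mem_filter.1 mc
  rcases reach h hr hrg hn ma'.1 ma'.2 with la | ⟨k, k1, k2, k3, k4⟩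
  · rcases reach h hr hrg hn mb'.1 mb'.2 with lb | ⟨k, k1, k2, k3, k4⟩
    · rcases reach h hr hrg hn mc'.1 mc'.2 with lc | ⟨k, k1, k2, k3, k4⟩
      · exact (hPE1 V G O {g} _ pg (pol_of h hg) r a b c ma mb mc hab hac hbc la lb lc).elim
      · exact ⟨k, k1, c, mc'.1, k2, mc'.2, k3, k4⟩
    · exact ⟨k, k1, b, mb'.1, k2, mb'.2, k3, k4⟩
  · exact ⟨k, k1, a, ma'.1, k2, ma'.2, k3, k4⟩

/-- at most `3` neighbours in `M` -/
lemma four {h a b c d : V} (hd : (M.filter (fun v => G.Adj h v)).card ≤ 3) (ha : a ∈ M)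
    (hb : b ∈ M) (hc : c ∈ M) (hd' : d ∈ M) (a1 : G.Adj h a) (b1 : G.Adj h b) (c1 : G.Adj h c)
    (d1 : G.Adj h d) (hab : a ≠ b) (hac : a ≠ c) (had : a ≠ d) (hbc : b ≠ c) (hbd : b ≠ d)
    (hcd : c ≠ d) : False := by
  have h1 : ({a, b, c, d} : Finset V) ⊆ M.filter (fun v => G.Adj h v) := by
    intro x hx
    simp only [Finset.mem_insert, Finset.mem_singleton] at hx
    rcases hx with rfl | rfl | rfl | rfl <;> simp [*]
  have h2 := Finset.card_le_card h1
  have h3 : ({a, b, c, d} : Finset V).card = 4 := by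
    rw [Finset.card_insert_of_notMem, Finset.card_insert_of_notMem, Finset.card_insert_of_notMem,
      Finset.card_singleton] <;> simp [*]
  omega

/-- at most `2` neighbours in `M` -/
lemma three {h a b c : V} (hd : (M.filter (fun v => G.Adj h v)).card ≤ 2) (ha : a ∈ M)
    (hb : b ∈ M) (hc : c ∈ M) (a1 : G.Adj h a) (b1 : G.Adj h b) (c1 : G.Adj h c)
    (hab : a ≠ b) (hac : a ≠ c) (hbc : b ≠ c) : False := by
  have h1 : ({a, b, c} : Finset V) ⊆ M.filter (fun v => G.Adj h v) := by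
    intro x hx
    simp only [Finset.mem_insert, Finset.mem_singleton] at hx
    rcases hx with rfl | rfl | rfl <;> simp [*]
  have h2 := Finset.card_le_card h1
  have h3 : ({a, b, c} : Finset V).card = 3 := by
    rw [Finset.card_insert_of_notMem, Finset.card_insert_of_notMem,
      Finset.card_singleton] <;> simp [*]
  omega

/-- Case 3A: some `g ∈ M` has three neighbours in `M` -/
lemma case3A (hPE1 : PE1Stmt) (hPE3 : PE3Stmt) (pg : PG G) (h : CoF G O M)
    (hd : ∀ g, g ∉ O → (M.filter (fun v => G.Adj g v)).card ≤ 3) (h6 : M.card = 6) {g : V}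
    (hgM : g ∈ M) (h3 : (M.filter (fun v => G.Adj g v)).card = 3) : False := by
  have hgO := h.out g hgM
  set S := M.filter (fun v => G.Adj g v) with hS
  have hSM : ∀ s, s ∈ S ↔ s ∈ M ∧ G.Adj g s := fun s => by rw [hS, Finset.mem_filter]
  have hgS : g ∉ S := fun hh => G.loopless.irrefl g ((hSM g).1 hh).2
  have hT : ((M.erase g) \ S).card = 2 := by
    rw [Finset.card_sdiff_of_subset, Finset.card_erase_of_mem hgM, h6, h3]
    intro s hs
    refine Finset.mem_erase.2 ⟨?_, ((hSM s).1 hs).1⟩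
    rintro rfl
    exact hgS hs
  obtain ⟨r1, r2, hr12, hTe⟩ := Finset.card_eq_two.1 hT
  have hr : ∀ r, r ∈ ({r1, r2} : Finset V) → r ∈ M ∧ r ≠ g ∧ ¬ G.Adj g r := by
    intro r hr
    rw [← hTe, Finset.mem_sdiff, Finset.mem_erase] at hr
    exact ⟨hr.1.2, hr.1.1, fun hh => hr.2 ((hSM r).2 ⟨hr.1.2, hh⟩)⟩
  obtain ⟨m1, n1, a1⟩ := hr r1 (by simp)
  obtain ⟨m2, n2, a2⟩ := hr r2 (by simp)
  obtain ⟨k1, k1M, s1, s1M, gk1, gs1, rk1, ks1⟩ := reach3 hPE1 pg h hgO h3 m1 n1 a1
  obtain ⟨k2, k2M, s2, s2M, gk2, gs2, rk2, ks2⟩ := reach3 hPE1 pg h hgO h3 m2 n2 a2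
  have hdM : ∀ m ∈ M, (M.filter (fun v => G.Adj m v)).card ≤ 3 := fun m hm => hd m (h.out m hm)
  -- facts: an element of `S` is different from `g, r1, r2`
  have neg : ∀ s, G.Adj g s → s ≠ g ∧ s ≠ r1 ∧ s ≠ r2 := by
    intro s hs
    refine ⟨?_, ?_, ?_⟩
    · rintro rfl
      exact G.loopless.irrefl s hs
    · rintro rfl
      exact a1 hs
    · rintro rfl
      exact a2 hs
  have hk : k1 ≠ k2 := by
    rintro rfl
    exact four (hdM k1 k1M) hgM m1 m2 s1M gk1.symm rk1.symm rk2.symm ks1 n1.symm n2.symm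
      (neg s1 gs1).1.symm hr12 (neg s1 gs1).2.1.symm (neg s1 gs1).2.2.symm
  -- third element
  have hke : ((S.erase k1).erase k2).card = 1 := by
    rw [Finset.card_erase_of_mem, Finset.card_erase_of_mem, h3]
    · exact (hSM k1).2 ⟨k1M, gk1⟩
    · exact Finset.mem_erase.2 ⟨hk.symm, (hSM k2).2 ⟨k2M, gk2⟩⟩
  obtain ⟨k, hke⟩ := Finset.card_eq_one.1 hke
  have hkm : k ∈ (S.erase k1).erase k2 := by rw [hke]; simp
  have hkk2 : k ≠ k2 := (Finset.mem_erase.1 hkm).1
  have hkk1 : k ≠ k1 := (Finset.mem_erase.1 (Finset.mem_erase.1 hkm).2).1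
  have hkS := (hSM k).1 (Finset.mem_erase.1 (Finset.mem_erase.1 hkm).2).2
  have hall : ∀ s ∈ M, G.Adj g s → s = k1 ∨ s = k2 ∨ s = k := by
    intro s hs hgs
    by_contra hcon
    push Not at hcon
    have : s ∈ (S.erase k1).erase k2 :=
      Finset.mem_erase.2 ⟨hcon.2.1, Finset.mem_erase.2 ⟨hcon.1, (hSM s).2 ⟨hs, hgs⟩⟩⟩
    rw [hke, Finset.mem_singleton] at this
    exact hcon.2.2 this
  have pol := pol_of h hgO
  have padj : PAdj G O {g} := by
    obtain ⟨z, hz, hzg⟩ := h.adj g hgM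
    exact ⟨z, hz, g, rfl, hzg⟩
  have mk1 : k1 ∈ S := (hSM k1).2 ⟨k1M, gk1⟩
  have mk2 : k2 ∈ S := (hSM k2).2 ⟨k2M, gk2⟩
  have mk : k ∈ S := (hSM k).2 hkS
  have X1 : r1 ∉ XX O {g} S := notXX (h.out r1 m1) n1 (fun hh => a1 hh.2)
  have X2 : r2 ∉ XX O {g} S := notXX (h.out r2 m2) n2 (fun hh => a2 hh.2)
  -- neighbours of `k1` in `M`: `g, r1, s1`; of `k2`: `g, r2, s2`
  have full1 : ∀ v ∈ M, G.Adj k1 v → v = g ∨ v = r1 ∨ v = s1 := by
    intro v hv hkv
    by_contra hcon
    push Not at hcon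
    exact four (hdM k1 k1M) hgM m1 s1M hv gk1.symm rk1.symm ks1 hkv n1.symm
      (neg s1 gs1).1.symm hcon.1.symm (neg s1 gs1).2.1.symm hcon.2.1.symm hcon.2.2.symm
  have full2 : ∀ v ∈ M, G.Adj k2 v → v = g ∨ v = r2 ∨ v = s2 := by
    intro v hv hkv
    by_contra hcon
    push Not at hcon
    exact four (hdM k2 k2M) hgM m2 s2M hv gk2.symm rk2.symm ks2 hkv n2.symm
      (neg s2 gs2).1.symm hcon.1.symm (neg s2 gs2).2.2.symm hcon.2.1.symm hcon.2.2.symm
  rcases hall s1 s1M gs1 with e | e | e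
  · rw [e] at ks1
    exact G.loopless.irrefl k1 ks1
  · -- `k1 ~ k2`
    rw [e] at ks1
    have e2 : s2 = k1 := by
      rcases full2 k1 k1M ks1.symm with e' | e' | e'
      · exact absurd e' (neg k1 gk1).1
      · exact absurd e' (neg k1 gk1).2.2
      · exact e'.symm
    have nk1 : ¬ G.Adj k1 k := by
      intro hh
      rcases full1 k hkS.1 hh with e' | e' | e'
      · exact (neg k hkS.2).1 e'
      · exact (neg k hkS.2).2.1 e'
      · exact hkk2 (e'.trans e)
    have nk2 : ¬ G.Adj k2 k := by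
      intro hh
      rcases full2 k hkS.1 hh with e' | e' | e'
      · exact (neg k hkS.2).1 e'
      · exact (neg k hkS.2).2.2 e'
      · exact hkk1 (e'.trans e2)
    have L : ∀ r, r ∈ M → r ≠ g → ¬ G.Adj g r → Lnk G (XX O {g} S) r k := by
      intro r hr hrg hn
      rcases reach h hr hrg hn hkS.1 hkS.2 with l | ⟨x, x1, x2, x3, x4⟩
      · exact l
      · rcases hall x x1 x2 with rfl | rfl | rfl
        · exact absurd x4 nk1
        · exact absurd x4 nk2
        · exact (G.loopless.irrefl _ x4).elim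
    have l1 := L r1 m1 n1 a1
    have l2 := L r2 m2 n2 a2
    have E12 : EJ G O {g} S k1 k2 := ⟨mk1, mk2, hk, Or.inl ks1⟩
    have E1k : EJ G O {g} S k k1 := ⟨mk, mk1, hkk1, Or.inr ⟨r1, l1, lnk_adj X1 rk1⟩⟩
    have E2k : EJ G O {g} S k2 k := ⟨mk2, mk, hkk2.symm, Or.inr ⟨r2, lnk_adj X2 rk2, l2⟩⟩
    exact hPE3 V G O {g} S pg pol (Or.inl padj) k1 k2 k E12 E2k E1k
  · -- `k1 ~ k`
    rw [e] at ks1
    have n12 : ¬ G.Adj k1 k2 := by
      intro hh
      rcases full1 k2 k2M hh with e' | e' | e'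
      · exact (neg k2 gk2).1 e'
      · exact (neg k2 gk2).2.1 e'
      · exact hkk2 ((e'.trans e).symm)
    have e2 : s2 = k := by
      rcases hall s2 s2M gs2 with e' | e' | e'
      · rw [e'] at ks2
        exact absurd ks2.symm n12
      · rw [e'] at ks2
        exact (G.loopless.irrefl _ ks2).elim
      · exact e'
    rw [e2] at ks2
    have nr1 : ¬ G.Adj r1 k := by
      intro hh
      exact four (hdM k hkS.1) hgM k1M k2M m1 hkS.2.symm ks1.symm ks2.symm hh.symm
        (neg k1 gk1).1.symm (neg k2 gk2).1.symm n1.symm hk (neg k1 gk1).2.1 (neg k2 gk2).2.1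
    have l1 : Lnk G (XX O {g} S) r1 k2 := by
      rcases reach h m1 n1 a1 k2M gk2 with l | ⟨x, x1, x2, x3, x4⟩
      · exact l
      · rcases hall x x1 x2 with rfl | rfl | rfl
        · exact absurd x4 n12
        · exact (G.loopless.irrefl _ x4).elim
        · exact absurd x3 nr1
    have E12 : EJ G O {g} S k1 k2 := ⟨mk1, mk2, hk, Or.inr ⟨r1, lnk_adj X1 rk1, l1⟩⟩
    have E1k : EJ G O {g} S k k1 := ⟨mk, mk1, hkk1, Or.inl ks1.symm⟩
    have E2k : EJ G O {g} S k2 k := ⟨mk2, mk, hkk2.symm, Or.inl ks2⟩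
    exact hPE3 V G O {g} S pg pol (Or.inl padj) k1 k2 k E12 E2k E1k

/-- Case 3B: all elements of `M` have at most two neighbours in `M` but some `g` outside has
three -/
lemma case3B (hPE1 : PE1Stmt) (pg : PG G) (h : CoF G O M)
    (hd : ∀ g ∈ M, (M.filter (fun v => G.Adj g v)).card ≤ 2) (h6 : M.card = 6) {g : V}
    (hgO : g ∉ O) (hgM : g ∉ M) (h3 : (M.filter (fun v => G.Adj g v)).card = 3) : False := by
  set S := M.filter (fun v => G.Adj g v) with hS
  have hSM : ∀ s, s ∈ S ↔ s ∈ M ∧ G.Adj g s := fun s => by rw [hS, Finset.mem_filter]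
  have hT : (M \ S).card = 3 := by
    rw [Finset.card_sdiff_of_subset (Finset.filter_subset _ _), h6, h3]
  obtain ⟨r1, r2, r3, hr12, hr13, hr23, hTe⟩ := Finset.card_eq_three.1 hT
  have hr : ∀ r, r ∈ ({r1, r2, r3} : Finset V) → r ∈ M ∧ r ≠ g ∧ ¬ G.Adj g r := by
    intro r hr
    rw [← hTe, Finset.mem_sdiff] at hr
    refine ⟨hr.1, ?_, fun hh => hr.2 ((hSM r).2 ⟨hr.1, hh⟩)⟩
    rintro rfl
    exact hgM hr.1
  obtain ⟨m1, n1, a1⟩ := hr r1 (by simp)
  obtain ⟨m2, n2, a2⟩ := hr r2 (by simp)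
  obtain ⟨m3, n3, a3⟩ := hr r3 (by simp)
  obtain ⟨k1, k1M, s1, s1M, gk1, gs1, rk1, ks1⟩ := reach3 hPE1 pg h hgO h3 m1 n1 a1
  obtain ⟨k2, k2M, s2, s2M, gk2, gs2, rk2, ks2⟩ := reach3 hPE1 pg h hgO h3 m2 n2 a2
  obtain ⟨k3, k3M, s3, s3M, gk3, gs3, rk3, ks3⟩ := reach3 hPE1 pg h hgO h3 m3 n3 a3
  have neg : ∀ s, G.Adj g s → s ≠ r1 ∧ s ≠ r2 ∧ s ≠ r3 := by
    intro s hs
    refine ⟨?_, ?_, ?_⟩
    · rintro rfl
      exact a1 hs
    · rintro rfl
      exact a2 hs
    · rintro rfl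
      exact a3 hs
  have h12 : k1 ≠ k2 := by
    rintro rfl
    exact three (hd k1 k1M) m1 m2 s1M rk1.symm rk2.symm ks1 hr12 (neg s1 gs1).1.symm
      (neg s1 gs1).2.1.symm
  have h13 : k1 ≠ k3 := by
    rintro rfl
    exact three (hd k1 k1M) m1 m3 s1M rk1.symm rk3.symm ks1 hr13 (neg s1 gs1).1.symm
      (neg s1 gs1).2.2.symm
  have h23 : k2 ≠ k3 := by
    rintro rfl
    exact three (hd k2 k2M) m2 m3 s2M rk2.symm rk3.symm ks2 hr23 (neg s2 gs2).2.1.symm
      (neg s2 gs2).2.2.symm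
  have hSe : ({k1, k2, k3} : Finset V) = S := by
    refine Finset.eq_of_subset_of_card_le ?_ ?_
    · intro x hx
      simp only [Finset.mem_insert, Finset.mem_singleton] at hx
      rcases hx with rfl | rfl | rfl
      · exact (hSM _).2 ⟨k1M, gk1⟩
      · exact (hSM _).2 ⟨k2M, gk2⟩
      · exact (hSM _).2 ⟨k3M, gk3⟩
    · rw [h3, Finset.card_insert_of_notMem, Finset.card_insert_of_notMem,
        Finset.card_singleton] <;> simp [*]
  have hall : ∀ s ∈ M, G.Adj g s → s = k1 ∨ s = k2 ∨ s = k3 := by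
    intro s hs hgs
    have : s ∈ ({k1, k2, k3} : Finset V) := by
      rw [hSe]
      exact (hSM s).2 ⟨hs, hgs⟩
    simpa using this
  have full1 : ∀ v ∈ M, G.Adj g v → G.Adj k1 v → v = s1 := by
    intro v hv hgv hkv
    by_contra hcon
    exact three (hd k1 k1M) m1 s1M hv rk1.symm ks1 hkv (neg s1 gs1).1.symm (neg v hgv).1.symm
      (Ne.symm hcon)
  have full2 : ∀ v ∈ M, G.Adj g v → G.Adj k2 v → v = s2 := by
    intro v hv hgv hkv
    by_contra hcon
    exact three (hd k2 k2M) m2 s2M hv rk2.symm ks2 hkv (neg s2 gs2).2.1.symm (neg v hgv).2.1.symm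
      (Ne.symm hcon)
  have full3 : ∀ v ∈ M, G.Adj g v → G.Adj k3 v → v = s3 := by
    intro v hv hgv hkv
    by_contra hcon
    exact three (hd k3 k3M) m3 s3M hv rk3.symm ks3 hkv (neg s3 gs3).2.2.symm (neg v hgv).2.2.symm
      (Ne.symm hcon)
  rcases hall s1 s1M gs1 with e1 | e1 | e1
  · rw [e1] at ks1
    exact G.loopless.irrefl _ ks1
  · rw [e1] at ks1
    have e2 := full2 k1 k1M gk1 ks1.symm
    rcases hall s3 s3M gs3 with e3 | e3 | e3
    · rw [e3] at ks3
      have := full1 k3 k3M gk3 ks3.symm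
      exact h23 (e1.symm.trans this.symm)
    · rw [e3] at ks3
      have := full2 k3 k3M gk3 ks3.symm
      exact h13 (e2.trans this.symm)
    · rw [e3] at ks3
      exact G.loopless.irrefl _ ks3
  · rw [e1] at ks1
    have e3 := full3 k1 k1M gk1 ks1.symm
    rcases hall s2 s2M gs2 with e2 | e2 | e2
    · rw [e2] at ks2
      have := full1 k2 k2M gk2 ks2.symm
      exact h23 (this.trans e1)
    · rw [e2] at ks2
      exact G.loopless.irrefl _ ks2
    · rw [e2] at ks2
      have := full3 k2 k2M gk2 ks2.symm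
      exact h12 (e3.trans this.symm)

/-- two-regular triangle-free graph on six vertices without twins: a six-cycle -/
lemma cycle6 (A : Fin 6 → Fin 6 → Prop) (symm : ∀ i j, A i j → A j i) (irr : ∀ i, ¬ A i i)
    (F1 : ∀ k, ∃ i j, i ≠ j ∧ ∀ x, A k x ↔ x = i ∨ x = j)
    (F2 : ∀ k i j, A k i → A k j → i ≠ j → ¬ A i j)
    (F3 : ∀ k k' i j, A k i → A k j → A k' i → A k' j → i ≠ j → k = k') :
    ∃ c1 c2 c3 c4 c5 c6 : Fin 6, ([c1, c2, c3, c4, c5, c6] : List (Fin 6)).Nodup ∧
      A c1 c2 ∧ A c2 c3 ∧ A c3 c4 ∧ A c4 c5 ∧ A c5 c6 ∧ A c6 c1 := by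
  have other : ∀ k i, A k i → ∃ j, j ≠ i ∧ A k j ∧ ∀ x, A k x → x = i ∨ x = j := by
    intro k i hki
    obtain ⟨a, b, hab, hx⟩ := F1 k
    rcases (hx i).1 hki with rfl | rfl
    · exact ⟨b, hab.symm, (hx b).2 (Or.inr rfl), fun x h => (hx x).1 h⟩
    · exact ⟨a, hab, (hx a).2 (Or.inl rfl), fun x h => ((hx x).1 h).symm⟩
  have seven : ∀ a b c d e f g : Fin 6, ([a, b, c, d, e, f, g] : List (Fin 6)).Nodup → False := by
    intro a b c d e f g hn
    have h1 := List.toFinset_card_of_nodup hn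
    have h2 := Finset.card_le_univ ([a, b, c, d, e, f, g] : List (Fin 6)).toFinset
    rw [h1] at h2
    simp at h2
  obtain ⟨c2, c6, h26, N1⟩ := F1 0
  set c1 : Fin 6 := 0 with hc1
  have a12 : A c1 c2 := (N1 c2).2 (Or.inl rfl)
  have a16 : A c1 c6 := (N1 c6).2 (Or.inr rfl)
  have n12 : c1 ≠ c2 := fun h => irr c1 (by rw [← h] at a12; exact a12)
  have n16 : c1 ≠ c6 := fun h => irr c1 (by rw [← h] at a16; exact a16)
  obtain ⟨c3, n31, a23, N2⟩ := other c2 c1 (symm _ _ a12)
  have n23 : c2 ≠ c3 := fun h => irr c2 (by rw [← h] at a23; exact a23)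
  have n36 : c3 ≠ c6 := by
    rintro rfl
    exact F2 c1 c2 c3 a12 a16 h26 a23
  obtain ⟨c4, n42, a34, N3⟩ := other c3 c2 (symm _ _ a23)
  have n34 : c3 ≠ c4 := fun h => irr c3 (by rw [← h] at a34; exact a34)
  have n41 : c4 ≠ c1 := by
    rintro h
    rw [h] at a34
    rcases (N1 c3).1 (symm _ _ a34) with h | h
    · exact n23 h.symm
    · exact n36 h
  have n46 : c4 ≠ c6 := by
    rintro rfl
    exact n31 (F3 c1 c3 c2 c4 a12 a16 (symm _ _ a23) a34 h26).symm
  obtain ⟨c5, n53, a45, N4⟩ := other c4 c3 (symm _ _ a34)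
  have n45 : c4 ≠ c5 := fun h => irr c4 (by rw [← h] at a45; exact a45)
  have n51 : c5 ≠ c1 := by
    rintro h
    rw [h] at a45
    rcases (N1 c4).1 (symm _ _ a45) with h | h
    · exact n42 h
    · exact n46 h
  have n52 : c5 ≠ c2 := by
    rintro h
    rw [h] at a45
    rcases N2 c4 (symm _ _ a45) with h | h
    · exact n41 h
    · exact n34 h.symm
  have n56 : c5 ≠ c6 := by
    rintro h
    rw [h] at a45
    -- `c1 c2 c3 c4 c6` is a five-cycle
    have N6 : ∀ x, A c6 x → x = c1 ∨ x = c4 := by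
      obtain ⟨y, y1, y2, y3⟩ := other c6 c1 (symm _ _ a16)
      intro x hx
      rcases y3 c4 (symm _ _ a45) with h' | h'
      · exact absurd h' n41
      · rw [h']
        exact y3 x hx
    rw [h] at N4
    obtain ⟨x, hx⟩ : ∃ x : Fin 6, x ∉ ({c1, c2, c3, c4, c6} : Finset (Fin 6)) := by
      by_contra hcon
      push Not at hcon
      have h1 : (Finset.univ : Finset (Fin 6)).card ≤ ({c1, c2, c3, c4, c6} : Finset (Fin 6)).card :=
        Finset.card_le_card (fun x _ => hcon x)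
      have h2 := Finset.card_le_five (a := c1) (b := c2) (c := c3) (d := c4) (e := c6)
      simp at h1
      omega
    simp only [Finset.mem_insert, Finset.mem_singleton, not_or] at hx
    obtain ⟨x1, x2, x3, x4, x6⟩ := hx
    obtain ⟨y, z, hyz, Nx⟩ := F1 x
    have hy := (Nx y).2 (Or.inl rfl)
    have yx : y ≠ x := fun h => irr x (by rw [h] at hy; exact hy)
    refine seven c1 c2 c3 c4 c6 x y ?_
    have y1 : y ≠ c1 := by
      intro h
      rw [h] at hy
      rcases (N1 x).1 (symm _ _ hy) with h | h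
      · exact x2 h
      · exact x6 h
    have y2 : y ≠ c2 := by
      intro h
      rw [h] at hy
      rcases N2 x (symm _ _ hy) with h | h
      · exact x1 h
      · exact x3 h
    have y3 : y ≠ c3 := by
      intro h
      rw [h] at hy
      rcases N3 x (symm _ _ hy) with h | h
      · exact x2 h
      · exact x4 h
    have y4 : y ≠ c4 := by
      intro h
      rw [h] at hy
      rcases N4 x (symm _ _ hy) with h | h
      · exact x3 h
      · exact x6 h
    have y6 : y ≠ c6 := by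
      intro h
      rw [h] at hy
      rcases N6 x (symm _ _ hy) with h | h
      · exact x1 h
      · exact x4 h
    simp only [List.nodup_cons, List.mem_cons, List.not_mem_nil, not_or, List.nodup_nil, or_false,
      not_false_eq_true, and_true]
    exact ⟨⟨n12, n31.symm, n41.symm, n16, Ne.symm x1, y1.symm⟩,
      ⟨n23, n42.symm, h26, Ne.symm x2, y2.symm⟩, ⟨n34, n36, Ne.symm x3, y3.symm⟩,
      ⟨n46, Ne.symm x4, y4.symm⟩, ⟨Ne.symm x6, y6.symm⟩, yx.symm⟩
  obtain ⟨z, nz4, a5z, N5⟩ := other c5 c4 (symm _ _ a45)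
  have z1 : z ≠ c1 := by
    intro h
    rw [h] at a5z
    rcases (N1 c5).1 (symm _ _ a5z) with h | h
    · exact n52 h
    · exact n56 h
  have z2 : z ≠ c2 := by
    intro h
    rw [h] at a5z
    rcases N2 c5 (symm _ _ a5z) with h | h
    · exact n51 h
    · exact n53 h
  have z3 : z ≠ c3 := by
    intro h
    rw [h] at a5z
    rcases N3 c5 (symm _ _ a5z) with h | h
    · exact n52 h
    · exact n45 h.symm
  have z5 : z ≠ c5 := fun h => irr c5 (by rw [h] at a5z; exact a5z)
  have z6 : z = c6 := by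
    by_contra z6
    refine seven c1 c2 c3 c4 c5 c6 z ?_
    simp only [List.nodup_cons, List.mem_cons, List.not_mem_nil, not_or, List.nodup_nil, or_false,
      not_false_eq_true, and_true]
    exact ⟨⟨n12, n31.symm, n41.symm, n51.symm, n16, z1.symm⟩,
      ⟨n23, n42.symm, n52.symm, h26, z2.symm⟩, ⟨n34, n53.symm, n36, z3.symm⟩,
      ⟨n45, n46, nz4.symm⟩, ⟨n56, z5.symm⟩, Ne.symm z6⟩
  rw [z6] at a5z
  refine ⟨c1, c2, c3, c4, c5, c6, ?_, a12, a23, a34, a45, a5z, symm _ _ a16⟩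
  simp only [List.nodup_cons, List.mem_cons, List.not_mem_nil, not_or, List.nodup_nil, or_false,
    not_false_eq_true, and_true]
  exact ⟨⟨n12, n31.symm, n41.symm, n51.symm, n16⟩, ⟨n23, n42.symm, n52.symm, h26⟩,
    ⟨n34, n53.symm, n36⟩, ⟨n45, n46⟩, n56⟩

/-- adjacent, or a middle outside `M` and `O` -/
def Good (G : SimpleGraph V) (O : Set V) (M : Finset V) (a b : V) : Prop :=
  G.Adj a b ∨ ∃ w, w ∉ O ∧ w ∉ M ∧ G.Adj w a ∧ G.Adj w b

lemma Good.symm {a b : V} (h : Good G O M a b) : Good G O M b a := by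
  rcases h with h | ⟨w, h1, h2, h3, h4⟩
  · exact Or.inl h.symm
  · exact Or.inr ⟨w, h1, h2, h4, h3⟩

/-- the counting step: at most `18` ordered good pairs -/
lemma count (pg : PG G) (h : CoF G O M)
    (hd : ∀ g, g ∉ O → (M.filter (fun v => G.Adj g v)).card ≤ 2) (m : Fin 6 → V)
    (hinj : Function.Injective m) (hm : ∀ i, m i ∈ M) :
    (Finset.univ.filter (fun e : Fin 6 × Fin 6 => e.1 ≠ e.2 ∧ Good G O M (m e.1) (m e.2))).card
      ≤ 18 := by
  -- branch sets
  let B : Fin 6 → Set V := fun i =>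
    {v | v = m i ∨ ∃ j, i < j ∧ v ∉ O ∧ v ∉ M ∧ G.Adj v (m i) ∧ G.Adj v (m j)}
  have hB : ∀ i, Con G (B i) := by
    intro i
    have hmi : m i ∈ B i := Or.inl rfl
    refine SimpleGraph.Connected.mk ?_ (nonempty := ⟨⟨m i, hmi⟩⟩)
    have key : ∀ v : B i, (G.induce (B i)).Reachable v ⟨m i, hmi⟩ := by
      rintro ⟨v, hv⟩
      rcases hv with rfl | ⟨j, hj, h1, h2, h3, h4⟩
      · exact SimpleGraph.Reachable.refl _
      · exact SimpleGraph.Adj.reachable (by simpa using h3)
    intro u v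
    exact (key u).trans (key v).symm
  have hBO : ∀ i, Disjoint O (B i) := by
    intro i
    rw [Set.disjoint_left]
    rintro v hv (rfl | ⟨j, hj, h1, -⟩)
    · exact h.out _ (hm i) hv
    · exact h1 hv
  have hBB : ∀ i j, i ≠ j → Disjoint (B i) (B j) := by
    intro i j hij
    rw [Set.disjoint_left]
    rintro v (rfl | ⟨i', hi', h1, h2, h3, h4⟩) (h5 | ⟨j', hj', h1', h2', h3', h4'⟩)
    · exact hij (hinj h5)
    · exact h2' (hm i)
    · rw [h5] at h2
      exact h2 (hm j)
    · -- `v` is adjacent to `m i, m i', m j, m j'`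
      have hne : i' ≠ j ∨ j' ≠ i := by
        by_contra hcon
        push Not at hcon
        obtain ⟨rfl, rfl⟩ := hcon
        exact absurd hi' (not_lt.2 hj'.le)
      by_cases e1 : i' = j
      · subst e1
        have e2 : j' ≠ i := by
          rcases hne with h' | h'
          · exact absurd rfl h'
          · exact h'
        exact three (hd v h1) (hm i) (hm i') (hm j') h3 h4 h4' (fun e => hi'.ne (hinj e))
          (fun e => e2 (hinj e).symm) (fun e => hj'.ne (hinj e))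
      · exact three (hd v h1) (hm i) (hm i') (hm j) h3 h4 h3' (fun e => hi'.ne (hinj e))
          (fun e => hij (hinj e)) (fun e => e1 (hinj e))
  have hc := pg.cnt 7 (Fin.cons O B) (by norm_num)
    (by
      intro i
      refine Fin.cases ?_ (fun i => ?_) i
      · exact h.con
      · exact hB i)
    (by
      intro i j
      refine Fin.cases ?_ (fun i => ?_) i <;> refine Fin.cases ?_ (fun j => ?_) j
      · intro hh
        exact absurd rfl hh
      · intro _
        exact hBO j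
      · intro _
        exact (hBO i).symm
      · intro hh
        exact hBB i j (fun e => hh (by rw [e])))
  set F := Finset.univ.filter (fun e : Fin 7 × Fin 7 => e.1 ≠ e.2 ∧
      ∃ a ∈ (Fin.cons O B : Fin 7 → Set V) e.1, ∃ b ∈ (Fin.cons O B : Fin 7 → Set V) e.2,
        G.Adj a b) with hF
  set Gd := Finset.univ.filter (fun e : Fin 6 × Fin 6 => e.1 ≠ e.2 ∧
      Good G O M (m e.1) (m e.2)) with hGd
  have c1 : (Finset.univ.image (fun i : Fin 6 => ((0 : Fin 7), i.succ))).card = 6 := by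
    rw [Finset.card_image_of_injective]
    · simp
    · intro i j hij
      simpa using hij
  have c2 : (Finset.univ.image (fun i : Fin 6 => (i.succ, (0 : Fin 7)))).card = 6 := by
    rw [Finset.card_image_of_injective]
    · simp
    · intro i j hij
      simpa using hij
  have c3 : (Gd.image (fun e : Fin 6 × Fin 6 => (e.1.succ, e.2.succ))).card = Gd.card := by
    rw [Finset.card_image_of_injective]
    intro e e' he
    have h1 := (Prod.mk.injEq _ _ _ _ ▸ he : e.1.succ = e'.1.succ ∧ e.2.succ = e'.2.succ)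
    exact Prod.ext (Fin.succ_injective _ h1.1) (Fin.succ_injective _ h1.2)
  have hsub : (Finset.univ.image (fun i : Fin 6 => ((0 : Fin 7), i.succ))) ∪
      (Finset.univ.image (fun i : Fin 6 => (i.succ, (0 : Fin 7)))) ∪
      (Gd.image (fun e : Fin 6 × Fin 6 => (e.1.succ, e.2.succ))) ⊆ F := by
    intro e he
    rw [Finset.mem_union, Finset.mem_union] at he
    rw [hF, Finset.mem_filter]
    refine ⟨Finset.mem_univ _, ?_⟩
    rcases he with (he | he) | he
    · obtain ⟨i, -, rfl⟩ := Finset.mem_image.1 he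
      obtain ⟨z, hz, hzm⟩ := h.adj _ (hm i)
      exact ⟨(Fin.succ_ne_zero i).symm, z, hz, m i, Or.inl rfl, hzm⟩
    · obtain ⟨i, -, rfl⟩ := Finset.mem_image.1 he
      obtain ⟨z, hz, hzm⟩ := h.adj _ (hm i)
      exact ⟨Fin.succ_ne_zero i, m i, Or.inl rfl, z, hz, hzm.symm⟩
    · obtain ⟨⟨i, j⟩, hij, rfl⟩ := Finset.mem_image.1 he
      rw [hGd, Finset.mem_filter] at hij
      obtain ⟨-, hne, hg⟩ := hij
      refine ⟨fun e => hne (Fin.succ_injective _ e), ?_⟩
      rcases hg with hg | ⟨w, w1, w2, w3, w4⟩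
      · exact ⟨m i, Or.inl rfl, m j, Or.inl rfl, hg⟩
      · rcases lt_or_gt_of_ne hne with hlt | hlt
        · exact ⟨w, Or.inr ⟨j, hlt, w1, w2, w3, w4⟩, m j, Or.inl rfl, w4⟩
        · exact ⟨m i, Or.inl rfl, w, Or.inr ⟨i, hlt, w1, w2, w4, w3⟩, w3.symm⟩
  have hcard := Finset.card_le_card hsub
  rw [Finset.card_union_of_disjoint, Finset.card_union_of_disjoint, c1, c2, c3] at hcard
  · omega
  · rw [Finset.disjoint_left]
    intro e he he'
    obtain ⟨i, -, rfl⟩ := Finset.mem_image.1 he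
    obtain ⟨j, -, hj⟩ := Finset.mem_image.1 he'
    have := congrArg Prod.fst hj
    exact Fin.succ_ne_zero j this
  · rw [Finset.disjoint_left]
    intro e he he'
    obtain ⟨j, -, hj⟩ := Finset.mem_image.1 he'
    rcases Finset.mem_union.1 he with he | he
    · obtain ⟨i, -, rfl⟩ := Finset.mem_image.1 he
      have := congrArg Prod.fst hj
      exact Fin.succ_ne_zero j.1 this
    · obtain ⟨i, -, rfl⟩ := Finset.mem_image.1 he
      have := congrArg Prod.snd hj
      exact Fin.succ_ne_zero j.2 this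

/-- Case 3C: nobody has three neighbours in `M` -/
lemma case3C (pg : PG G) (h : CoF G O M)
    (hd : ∀ g, g ∉ O → (M.filter (fun v => G.Adj g v)).card ≤ 2) (h6 : M.card = 6) : False := by
  obtain ⟨m, hinj, hm, hsurj⟩ : ∃ m : Fin 6 → V, Function.Injective m ∧ (∀ i, m i ∈ M) ∧
      ∀ v ∈ M, ∃ i, m i = v := by
    let e := (Finset.equivFinOfCardEq h6).symm
    refine ⟨fun i => (e i : V), fun i j hij => e.injective (Subtype.ext hij), fun i => (e i).2,
      fun v hv => ⟨e.symm ⟨v, hv⟩, by simp⟩⟩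
  have hcnt := count pg h hd m hinj hm
  set Gd := Finset.univ.filter (fun e : Fin 6 × Fin 6 => e.1 ≠ e.2 ∧
      Good G O M (m e.1) (m e.2)) with hGd
  set Bd := Finset.univ.filter (fun e : Fin 6 × Fin 6 => e.1 ≠ e.2 ∧
      ¬ Good G O M (m e.1) (m e.2)) with hBd
  let N : Fin 6 → Finset (Fin 6) := fun k => Finset.univ.filter (fun i => G.Adj (m k) (m i))
  have hN : ∀ k i, i ∈ N k ↔ G.Adj (m k) (m i) := fun k i => by simp [N]
  have hN2 : ∀ k, (N k).card ≤ 2 := by
    intro k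
    refine le_trans ?_ (hd (m k) (h.out _ (hm k)))
    rw [← Finset.card_image_of_injective (N k) hinj]
    refine Finset.card_le_card ?_
    intro v hv
    obtain ⟨i, hi, rfl⟩ := Finset.mem_image.1 hv
    exact Finset.mem_filter.2 ⟨hm i, (hN k i).1 hi⟩
  have hoff : ∀ k, (N k).offDiag.card ≤ 2 := by
    intro k
    rw [Finset.offDiag_card]
    have := hN2 k
    interval_cases (N k).card <;> norm_num
  -- cardinalities
  have hsum : Gd.card + Bd.card = 30 := by
    have h1 : Gd ∪ Bd = (Finset.univ : Finset (Fin 6)).offDiag := by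
      ext e
      simp only [hGd, hBd, Finset.mem_union, Finset.mem_filter, Finset.mem_univ, true_and,
        Finset.mem_offDiag]
      tauto
    have h2 : Disjoint Gd Bd := by
      rw [Finset.disjoint_left]
      intro e he he'
      rw [hGd, Finset.mem_filter] at he
      rw [hBd, Finset.mem_filter] at he'
      exact he'.2.2 he.2.2
    rw [← Finset.card_union_of_disjoint h2, h1, Finset.offDiag_card]
    simp
  -- the middle of a bad pair
  have hmid : ∀ e : Fin 6 × Fin 6, ∃ k, e ∈ Bd → e.1 ∈ N k ∧ e.2 ∈ N k := by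
    intro e
    by_cases he : e ∈ Bd
    · have he' := he
      rw [hBd, Finset.mem_filter] at he'
      obtain ⟨-, hne, hng⟩ := he'
      rcases h.lk _ (hm e.1) _ (hm e.2) (fun hh => hne (hinj hh)) with ha | ⟨x, x1, x2, x3⟩
      · exact absurd (Or.inl ha) hng
      · by_cases hx : x ∈ M
        · obtain ⟨k, rfl⟩ := hsurj x hx
          exact ⟨k, fun _ => ⟨(hN k _).2 x2.symm, (hN k _).2 x3⟩⟩
        · exact absurd (Or.inr ⟨x, x1, hx, x2.symm, x3⟩) hng
    · exact ⟨0, fun hh => absurd hh he⟩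
  choose κ hκ using hmid
  let T : Finset (Σ _ : Fin 6, Fin 6 × Fin 6) :=
    (Finset.univ : Finset (Fin 6)).sigma (fun k => (N k).offDiag)
  have hTc : T.card = ∑ k, (N k).offDiag.card := Finset.card_sigma _ _
  have hTle : T.card ≤ 12 := by
    rw [hTc]
    calc ∑ k, (N k).offDiag.card ≤ ∑ _k : Fin 6, 2 := Finset.sum_le_sum (fun k _ => hoff k)
      _ = 12 := by simp
  let f : Fin 6 × Fin 6 → (Σ _ : Fin 6, Fin 6 × Fin 6) := fun e => ⟨κ e, e⟩
  have hfinj : Function.Injective f := by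
    intro e e' he
    exact congrArg Sigma.snd he
  have hsub : Bd.image f ⊆ T := by
    intro t ht
    obtain ⟨e, he, rfl⟩ := Finset.mem_image.1 ht
    refine Finset.mem_sigma.2 ⟨Finset.mem_univ _, Finset.mem_offDiag.2 ?_⟩
    have he' := he
    rw [hBd, Finset.mem_filter] at he'
    exact ⟨(hκ e he).1, (hκ e he).2, he'.2.1⟩
  have hBd12 : 12 ≤ Bd.card := by omega
  have himg : (Bd.image f).card = Bd.card := Finset.card_image_of_injective _ hfinj
  have heq : Bd.image f = T := Finset.eq_of_subset_of_card_le hsub (by omega)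
  have hTc12 : T.card = 12 := by
    have := congrArg Finset.card heq
    omega
  have hoff2 : ∀ k, (N k).offDiag.card = 2 := by
    intro k
    by_contra hk
    have hlt : (N k).offDiag.card < 2 := lt_of_le_of_ne (hoff k) hk
    have : ∑ k, (N k).offDiag.card < ∑ _k : Fin 6, 2 :=
      Finset.sum_lt_sum (fun k _ => hoff k) ⟨k, Finset.mem_univ _, hlt⟩
    rw [← hTc, hTc12] at this
    simp at this
  have hcard2 : ∀ k, (N k).card = 2 := by
    intro k
    have h1 := hoff2 k
    rw [Finset.offDiag_card] at h1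
    have := hN2 k
    interval_cases hh : (N k).card <;> first | rfl | omega
  -- for `i ≠ j` in `N k` the pair is bad and its middle is `k`
  have hbad : ∀ k i j, i ∈ N k → j ∈ N k → i ≠ j → (i, j) ∈ Bd ∧ κ (i, j) = k := by
    intro k i j hi hj hij
    have : (⟨k, (i, j)⟩ : Σ _ : Fin 6, Fin 6 × Fin 6) ∈ T :=
      Finset.mem_sigma.2 ⟨Finset.mem_univ _, Finset.mem_offDiag.2 ⟨hi, hj, hij⟩⟩
    rw [← heq] at this
    obtain ⟨e, he, hfe⟩ := Finset.mem_image.1 this
    have h2 : e = (i, j) := congrArg Sigma.snd hfe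
    have h1 : κ e = k := congrArg Sigma.fst hfe
    rw [h2] at he h1
    exact ⟨he, h1⟩
  have hng : ∀ i j, (i, j) ∈ Bd → ¬ Good G O M (m i) (m j) := by
    intro i j hij
    rw [hBd, Finset.mem_filter] at hij
    exact hij.2.2
  obtain ⟨c1, c2, c3, c4, c5, c6, hnd, a12, a23, a34, a45, a56, a61⟩ :=
    cycle6 (fun i j => G.Adj (m i) (m j)) (fun i j hh => hh.symm)
      (fun i => G.loopless.irrefl _)
      (by
        intro k
        obtain ⟨i, j, hij, hk⟩ := Finset.card_eq_two.1 (hcard2 k)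
        refine ⟨i, j, hij, fun x => ?_⟩
        have : x ∈ N k ↔ x ∈ ({i, j} : Finset (Fin 6)) := by rw [hk]
        rw [← hN k x, this]
        simp)
      (by
        intro k i j hi hj hij ha
        exact hng i j (hbad k i j ((hN k i).2 hi) ((hN k j).2 hj) hij).1 (Or.inl ha))
      (by
        intro k k' i j hi hj hi' hj' hij
        have h1 := (hbad k i j ((hN k i).2 hi) ((hN k j).2 hj) hij).2
        have h2 := (hbad k' i j ((hN k' i).2 hi') ((hN k' j).2 hj') hij).2
        exact h1.symm.trans h2)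
  simp only [List.nodup_cons, List.mem_cons, List.not_mem_nil, not_or, List.nodup_nil, or_false,
    not_false_eq_true, and_true] at hnd
  obtain ⟨⟨n12, n13, n14, n15, n16⟩, ⟨n23, n24, n25, n26⟩, ⟨n34, n35, n36⟩, ⟨n45, n46⟩, n56⟩ := hnd
  have mne : ∀ {i j}, i ≠ j → m i ≠ m j := fun hij hh => hij (hinj hh)
  have full : ∀ {k i j x : Fin 6}, G.Adj (m k) (m i) → G.Adj (m k) (m j) → i ≠ j →
      G.Adj (m k) (m x) → x = i ∨ x = j := by
    intro k i j x hi hj hij hx
    by_contra hcon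
    push Not at hcon
    exact three (hd (m k) (h.out _ (hm k))) (hm i) (hm j) (hm x) hi hj hx (mne hij)
      (mne hcon.1.symm) (mne hcon.2.symm)
  -- opposite pairs have middles outside
  have opp : ∀ {a b c d e g : Fin 6}, a ≠ d → d ≠ b → d ≠ g → a ≠ c → b ≠ g → a ≠ e → e ≠ c →
      G.Adj (m a) (m b) → G.Adj (m a) (m g) → G.Adj (m b) (m c) → G.Adj (m g) (m e) →
      d ≠ c → d ≠ e →
      ∃ w, w ∉ O ∧ w ∉ M ∧ G.Adj w (m a) ∧ G.Adj w (m d) := by
    intro a b c d e g had hdb hdg hac hbg hae hec hab hag hbc hge hdc hde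
    rcases h.lk _ (hm a) _ (hm d) (mne had) with ha | ⟨x, x1, x2, x3⟩
    · rcases full hab hag hbg ha with h' | h'
      · exact absurd h' hdb
      · exact absurd h' hdg
    · by_cases hx : x ∈ M
      · obtain ⟨k, rfl⟩ := hsurj x hx
        exfalso
        rcases full hab hag hbg x2 with h' | h'
        · rw [h'] at x3
          rcases full hab.symm hbc hac x3 with h'' | h''
          · exact had h''.symm
          · exact hdc h''
        · rw [h'] at x3
          rcases full hag.symm hge hae x3 with h'' | h''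
          · exact had h''.symm
          · exact hde h''
      · exact ⟨x, x1, hx, x2.symm, x3⟩
  obtain ⟨w, w1, w2, w3, w4⟩ := opp (a := c1) (b := c2) (c := c3) (d := c4) (e := c5) (g := c6)
    n14 (Ne.symm n24) n46 n13 n26 n15 (Ne.symm n35) a12 a61.symm a23 a56.symm (Ne.symm n34) n45
  obtain ⟨w', w1', w2', w3', w4'⟩ := opp (a := c2) (b := c3) (c := c4) (d := c5) (e := c6)
    (g := c1) n25 (Ne.symm n35) (Ne.symm n15) n24 (Ne.symm n13) n26 (Ne.symm n46) a23 a12.symm a34
    a61.symm (Ne.symm n45) n56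
  have hww : w ≠ w' := by
    rintro rfl
    exact three (hd w w1) (hm c1) (hm c2) (hm c4) w3 w3' w4 (mne n12) (mne n14) (mne n24)
  have oM : ∀ i, m i ∉ O := fun i => h.out _ (hm i)
  have wm : ∀ i, w ≠ m i := fun i hh => w2 (by rw [hh]; exact hm i)
  have wm' : ∀ i, w' ≠ m i := fun i hh => w2' (by rw [hh]; exact hm i)
  refine pg.k5 (hasMinor_k5 ![O, {m c1, m c6}, {m c2, m c3}, {m c4, w}, {m c5, w'}] ?_ ?_ ?_)
  · intro i
    fin_cases i
    · exact h.con
    · exact con_pair (Or.inr a61.symm)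
    · exact con_pair (Or.inr a23)
    · exact con_pair (Or.inr w4.symm)
    · exact con_pair (Or.inr w4'.symm)
  · intro i j hij
    have d0 : ∀ a b : V, a ∉ O → b ∉ O → Disjoint O ({a, b} : Set V) := by
      intro a b ha hb
      rw [Set.disjoint_right]
      rintro x (rfl | hx)
      · exact ha
      · rw [Set.mem_singleton_iff.1 hx]
        exact hb
    have d1 : ∀ a b c d : V, a ≠ c → a ≠ d → b ≠ c → b ≠ d →
        Disjoint ({a, b} : Set V) ({c, d} : Set V) := by
      intro a b c d h1 h2 h3 h4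
      rw [Set.disjoint_left]
      rintro x (rfl | hx) (hy | hy)
      · exact h1 hy
      · exact h2 hy
      · rw [Set.mem_singleton_iff.1 hx] at hy
        exact h3 hy
      · rw [Set.mem_singleton_iff.1 hx] at hy
        exact h4 hy
    fin_cases i <;> fin_cases j <;> first | (exfalso; revert hij; decide) | skip
    · exact d0 _ _ (oM _) (oM _)
    · exact d0 _ _ (oM _) (oM _)
    · exact d0 _ _ (oM _) w1
    · exact d0 _ _ (oM _) w1'
    · exact d1 _ _ _ _ (mne n12) (mne n13) (mne (Ne.symm n26)) (mne (Ne.symm n36))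
    · exact d1 _ _ _ _ (mne n14) (wm _).symm (mne (Ne.symm n46)) (wm _).symm
    · exact d1 _ _ _ _ (mne n15) (wm' _).symm (mne (Ne.symm n56)) (wm' _).symm
    · exact d1 _ _ _ _ (mne n24) (wm _).symm (mne n34) (wm _).symm
    · exact d1 _ _ _ _ (mne n25) (wm' _).symm (mne n35) (wm' _).symm
    · exact d1 _ _ _ _ (mne n45) (wm' _).symm (wm _) hww
  · intro i j hij
    have aO : ∀ i (S : Set V), m i ∈ S → ∃ x ∈ O, ∃ y ∈ S, G.Adj x y := by
      intro i S hS
      obtain ⟨z, hz, hzm⟩ := h.adj _ (hm i)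
      exact ⟨z, hz, m i, hS, hzm⟩
    fin_cases i <;> fin_cases j <;> first | (exfalso; revert hij; decide) | skip
    · exact aO c1 _ (Or.inl rfl)
    · exact aO c2 _ (Or.inl rfl)
    · exact aO c4 _ (Or.inl rfl)
    · exact aO c5 _ (Or.inl rfl)
    · exact ⟨m c1, Or.inl rfl, m c2, Or.inl rfl, a12⟩
    · exact ⟨m c1, Or.inl rfl, w, Or.inr rfl, w3.symm⟩
    · exact ⟨m c6, Or.inr rfl, m c5, Or.inl rfl, a56.symm⟩
    · exact ⟨m c3, Or.inr rfl, m c4, Or.inl rfl, a34⟩
    · exact ⟨m c2, Or.inl rfl, w', Or.inr rfl, w3'.symm⟩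
    · exact ⟨m c4, Or.inl rfl, m c5, Or.inl rfl, a45⟩

/-- CO3 -/
theorem co3 (hPE1 : PE1Stmt) (hPE3 : PE3Stmt) : CO3Stmt := by
  intro V G O M pg h hd
  by_contra hcon
  push Not at hcon
  obtain ⟨M', hM', h6⟩ := Finset.exists_subset_card_eq hcon
  have h' := cof_sub h hM'
  have hd' : ∀ g, g ∉ O → (M'.filter (fun v => G.Adj g v)).card ≤ 3 := fun g hg =>
    le_trans (Finset.card_le_card (Finset.filter_subset_filter _ hM')) (hd g hg)
  by_cases hA : ∃ g ∈ M', (M'.filter (fun v => G.Adj g v)).card = 3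
  · obtain ⟨g, hg, h3⟩ := hA
    exact case3A hPE1 hPE3 pg h' hd' h6 hg h3
  · push Not at hA
    have hdM : ∀ g ∈ M', (M'.filter (fun v => G.Adj g v)).card ≤ 2 := by
      intro g hg
      have h1 := hd' g (h'.out g hg)
      have h2 := hA g hg
      omega
    by_cases hB : ∃ g, g ∉ O ∧ (M'.filter (fun v => G.Adj g v)).card = 3
    · obtain ⟨g, hg, h3⟩ := hB
      have hgM : g ∉ M' := fun hh => by
        have := hdM g hh
        omega
      exact case3B hPE1 pg h' hdM h6 hg hgM h3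
    · push Not at hB
      refine case3C pg h' (fun g hg => ?_) h6
      have h1 := hd' g hg
      have h2 := hB g hg
      omega

end Pool.Agent.H4.RCQ.CO3
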