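import Pool.Agent.H6.RCQ.Stmts4

/-!
# Project RCQ: module K6A
-/

set_option autoImplicit false

namespace Pool.Agent.H4.RCQ.K6A

open Pool.Agent.H39.RC Pool.Agent.H6.RCQ
open Classical

variable {V : Type} {G : SimpleGraph V}

/-- `k` connects `w` to `s` -/
def Kn (G : SimpleGraph V) (x w s k : V) : Prop := k ≠ x ∧ G.Adj w k ∧ (k = s ∨ G.Adj k s)

lemma con3 {w s k : V} {x : V} (h : Kn G x w s k) : Con G ({s, k, w} : Set V) := by
  have h1 : Con G ({k, w} : Set V) := con_pair (Or.inr h.2.1.symm)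
  rcases h.2.2 with e | e
  · rw [← e]
    have : ({k, k, w} : Set V) = {k, w} := by simp
    rw [this]
    exact h1
  · exact h1.insert (Set.mem_insert _ _) e

lemma con5 {w s s' k k' : V} {x : V} (h : Kn G x w s k) (h' : Kn G x w s' k') :
    Con G ({s, k, w, k', s'} : Set V) := by
  have h1 := (con3 h).union (con3 h') (v := w) (by simp) (by simp)
  have : ({s, k, w, k', s'} : Set V) = {s, k, w} ∪ {s', k', w} := by
    ext z
    simp only [Set.mem_insert_iff, Set.mem_singleton_iff, Set.mem_union]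
    tauto
  rw [this]
  exact h1

/-- crossing connections of two non-adjacent vertices -/
lemma cross {x u v a b c d p p' h h' : V} (cr : Cr G x a b c d) (nuv : u ≠ v)
    (auv : ¬ G.Adj u v) (ux : u ≠ x) (vx : v ≠ x) (xa : x ≠ a) (xb : x ≠ b) (xc : x ≠ c)
    (xd : x ≠ d) (ab : a ≠ b) (ad : a ≠ d) (cb : c ≠ b) (cd : c ≠ d) (ub : u ≠ b) (ud : u ≠ d)
    (va : v ≠ a) (vc : v ≠ c) (k1 : Kn G x u a p) (k2 : Kn G x u c p') (k3 : Kn G x v b h)
    (k4 : Kn G x v d h') :
    a = h ∨ a = h' ∨ c = h ∨ c = h' ∨ p = b ∨ p = d ∨ p' = b ∨ p' = d ∨ p = h ∨ p = h' ∨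
      p' = h ∨ p' = h' := by
  obtain ⟨z, hz1, hz2⟩ := cr {a, p, u, p', c} {b, h, v, h', d} (con5 k1 k2) (con5 k3 k4)
    (by
      simp only [Set.mem_insert_iff, Set.mem_singleton_iff, not_or]
      exact ⟨xa, k1.1.symm, ux.symm, k2.1.symm, xc⟩)
    (by
      simp only [Set.mem_insert_iff, Set.mem_singleton_iff, not_or]
      exact ⟨xb, k3.1.symm, vx.symm, k4.1.symm, xd⟩)
    (by simp) (by simp) (by simp) (by simp)
  simp only [Set.mem_insert_iff, Set.mem_singleton_iff] at hz1 hz2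
  have pv : p ≠ v := fun e => auv (e ▸ k1.2.1)
  have p'v : p' ≠ v := fun e => auv (e ▸ k2.2.1)
  have uh : u ≠ h := fun e => auv (e ▸ k3.2.1.symm)
  have uh' : u ≠ h' := fun e => auv (e ▸ k4.2.1.symm)
  rcases hz1 with e1 | e1 | e1 | e1 | e1 <;> rcases hz2 with e2 | e2 | e2 | e2 | e2 <;>
    have e := e1.symm.trans e2 <;> clear e1 e2 <;>
    first | exact absurd e (by assumption) | exact absurd e.symm (by assumption) | tauto

/-- the situation around a bad centre `s1` with neighbours `s0`, `s2`, and a further bad `s4` -/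
structure Sit (G : SimpleGraph V) (x u v s0 s1 s2 s4 : V) : Prop where
  cr : ∀ p p' h h', Kn G x v s0 h → Kn G x v s2 h' → Kn G x u s1 p → Kn G x u s4 p' →
    s0 = p ∨ s0 = p' ∨ s2 = p ∨ s2 = p' ∨ h = s1 ∨ h = s4 ∨ h' = s1 ∨ h' = s4 ∨ h = p ∨ h = p' ∨
      h' = p ∨ h' = p'
  n04 : ¬ (s0 = s4 ∨ G.Adj s0 s4)
  n24 : ¬ (s2 = s4 ∨ G.Adj s2 s4)
  b1 : Bad G x u v s1
  b4 : Bad G x u v s4
  e0 : ∃ h, Kn G x v s0 h
  e2 : ∃ h, Kn G x v s2 h
  e4 : ∃ h, Kn G x u s4 h

lemma Sit.core0 {x u v s0 s1 s2 s4 : V} (S : Sit G x u v s0 s1 s2 s4) (h1x : s1 ≠ x)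
    (n10 : s1 ≠ s0) (n12 : s1 ≠ s2) : ¬ G.Adj u s1 := by
  intro hu
  obtain ⟨h, hh⟩ := S.e0
  obtain ⟨h', hh'⟩ := S.e2
  obtain ⟨p', hp'⟩ := S.e4
  have nv : ¬ G.Adj v s1 := fun hv => S.b1 s1 h1x hu hv (Or.inl rfl)
  have hk : Kn G x u s1 s1 := ⟨h1x, hu, Or.inl rfl⟩
  rcases S.cr s1 p' h h' hh hh' hk hp' with e | e | e | e | e | e | e | e | e | e | e | e
  · exact n10 e.symm
  · exact S.n04 (e ▸ hp'.2.2)
  · exact n12 e.symm
  · exact S.n24 (e ▸ hp'.2.2)
  · exact nv (e ▸ hh.2.1)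
  · rcases hh.2.2 with e' | e'
    · exact S.n04 (Or.inl (e'.symm.trans e))
    · exact S.n04 (Or.inr (e ▸ e'.symm))
  · exact nv (e ▸ hh'.2.1)
  · rcases hh'.2.2 with e' | e'
    · exact S.n24 (Or.inl (e'.symm.trans e))
    · exact S.n24 (Or.inr (e ▸ e'.symm))
  · exact nv (e ▸ hh.2.1)
  · exact S.b4 p' hp'.1 hp'.2.1 (e ▸ hh.2.1) hp'.2.2
  · exact nv (e ▸ hh'.2.1)
  · exact S.b4 p' hp'.1 hp'.2.1 (e ▸ hh'.2.1) hp'.2.2

lemma Sit.core1 {x u v s0 s1 s2 s4 p : V} (S : Sit G x u v s0 s1 s2 s4) (nv : ¬ G.Adj v s1)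
    (hp : Kn G x u s1 p) : p = s0 ∨ p = s2 := by
  obtain ⟨h, hh⟩ := S.e0
  obtain ⟨h', hh'⟩ := S.e2
  obtain ⟨p', hp'⟩ := S.e4
  rcases S.cr p p' h h' hh hh' hp hp' with e | e | e | e | e | e | e | e | e | e | e | e
  · exact Or.inl e.symm
  · exact (S.n04 (e ▸ hp'.2.2)).elim
  · exact Or.inr e.symm
  · exact (S.n24 (e ▸ hp'.2.2)).elim
  · exact (nv (e ▸ hh.2.1)).elim
  · rcases hh.2.2 with e' | e'
    · exact (S.n04 (Or.inl (e'.symm.trans e))).elim
    · exact (S.n04 (Or.inr (e ▸ e'.symm))).elim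
  · exact (nv (e ▸ hh'.2.1)).elim
  · rcases hh'.2.2 with e' | e'
    · exact (S.n24 (Or.inl (e'.symm.trans e))).elim
    · exact (S.n24 (Or.inr (e ▸ e'.symm))).elim
  · exact (S.b1 p hp.1 hp.2.1 (e ▸ hh.2.1) hp.2.2).elim
  · exact (S.b4 p' hp'.1 hp'.2.1 (e ▸ hh.2.1) hp'.2.2).elim
  · exact (S.b1 p hp.1 hp.2.1 (e ▸ hh'.2.1) hp.2.2).elim
  · exact (S.b4 p' hp'.1 hp'.2.1 (e ▸ hh'.2.1) hp'.2.2).elim

section
variable {R : Finset V} {x : V} {t : ℕ → V} {u v : V}

lemma mD (W : W6 G R x t) {i : ℕ} (hi : i < 6) : t i ∈ R ∧ G.Adj x (t i) :=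
  Finset.mem_filter.1 (W.circ.mem i hi)

lemma ne_t (W : W6 G R x t) {i j : ℕ} (hi : i < 6) (hj : j < 6) (h : i ≠ j) : t i ≠ t j :=
  fun e => h (W.circ.inj i hi j hj e)

lemma x_t (W : W6 G R x t) {i : ℕ} (hi : i < 6) : x ≠ t i := (mD W hi).2.ne

lemma mU {w : V} (hw : w ∈ U G R x) : w ∈ R ∧ w ≠ x ∧ ¬ G.Adj x w := Finset.mem_filter.1 hw

lemma ne_U (W : W6 G R x t) {w : V} (hw : w ∈ U G R x) {i : ℕ} (hi : i < 6) : w ≠ t i := by
  rintro rfl
  exact (mU hw).2.2 (mD W hi).2

lemma exKn (W : W6 G R x t) {w : V} (hw : w ∈ U G R x) {i : ℕ} (hi : i < 6) :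
    ∃ k, Kn G x w (t i) k := by
  rcases W.s6.lf.lk w (mU hw).1 (t i) (mD W hi).1 (ne_U W hw hi) with h | ⟨k, -, h1, h2⟩
  · exact ⟨t i, (x_t W hi).symm, h, Or.inl rfl⟩
  · refine ⟨k, ?_, h1, Or.inr h2⟩
    rintro rfl
    exact (mU hw).2.2 h1.symm

lemma nadj (W : W6 G R x t) {i j : ℕ} (hi : i < 6) (hj : j < 6) (h : i ≠ j)
    (h1 : j ≠ (i + 1) % 6) (h2 : i ≠ (j + 1) % 6) : ¬ (t i = t j ∨ G.Adj (t i) (t j)) := by
  rintro (e | e)
  · exact ne_t W hi hj h e
  · rcases W.adj i hi j hj e with e | e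
    · exact h1 e
    · exact h2 e

lemma Bad.sy {s : V} (h : Bad G x u v s) : Bad G x v u s := fun c h1 h2 h3 => h c h1 h3 h2

/-- the two situations -/
lemma sit1 (W : W6 G R x t) (hu : u ∈ U G R x) (hv : v ∈ U G R x) (nuv : u ≠ v)
    (auv : ¬ G.Adj u v) (b1 : Bad G x u v (t 1)) (b4 : Bad G x u v (t 4)) :
    Sit G x u v (t 0) (t 1) (t 2) (t 4) where
  cr := by
    intro p p' h h' k1 k2 k3 k4
    exact cross (W.circ.cr 0 1 2 4 (by norm_num) (by norm_num) (by norm_num) (by norm_num))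
      nuv.symm (fun e => auv e.symm) (mU hv).2.1 (mU hu).2.1 (x_t W (by norm_num))
      (x_t W (by norm_num)) (x_t W (by norm_num)) (x_t W (by norm_num))
      (ne_t W (by norm_num) (by norm_num) (by norm_num))
      (ne_t W (by norm_num) (by norm_num) (by norm_num))
      (ne_t W (by norm_num) (by norm_num) (by norm_num))
      (ne_t W (by norm_num) (by norm_num) (by norm_num))
      (ne_U W hv (by norm_num)) (ne_U W hv (by norm_num)) (ne_U W hu (by norm_num))
      (ne_U W hu (by norm_num)) k1 k2 k3 k4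
  n04 := nadj W (by norm_num) (by norm_num) (by norm_num) (by norm_num) (by norm_num)
  n24 := nadj W (by norm_num) (by norm_num) (by norm_num) (by norm_num) (by norm_num)
  b1 := b1
  b4 := b4
  e0 := exKn W hv (by norm_num)
  e2 := exKn W hv (by norm_num)
  e4 := exKn W hu (by norm_num)

lemma sit4 (W : W6 G R x t) (hu : u ∈ U G R x) (hv : v ∈ U G R x) (nuv : u ≠ v)
    (auv : ¬ G.Adj u v) (b1 : Bad G x u v (t 1)) (b4 : Bad G x u v (t 4)) :
    Sit G x u v (t 3) (t 4) (t 5) (t 1) where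
  cr := by
    intro p p' h h' k1 k2 k3 k4
    have := cross (W.circ.cr 1 3 4 5 (by norm_num) (by norm_num) (by norm_num) (by norm_num))
      nuv auv (mU hu).2.1 (mU hv).2.1 (x_t W (by norm_num))
      (x_t W (by norm_num)) (x_t W (by norm_num)) (x_t W (by norm_num))
      (ne_t W (by norm_num) (by norm_num) (by norm_num))
      (ne_t W (by norm_num) (by norm_num) (by norm_num))
      (ne_t W (by norm_num) (by norm_num) (by norm_num))
      (ne_t W (by norm_num) (by norm_num) (by norm_num))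
      (ne_U W hu (by norm_num)) (ne_U W hu (by norm_num)) (ne_U W hv (by norm_num))
      (ne_U W hv (by norm_num)) k4 k3 k1 k2
    rcases this with e | e | e | e | e | e | e | e | e | e | e | e <;> have e' := e.symm <;> tauto
  n04 := nadj W (by norm_num) (by norm_num) (by norm_num) (by norm_num) (by norm_num)
  n24 := nadj W (by norm_num) (by norm_num) (by norm_num) (by norm_num) (by norm_num)
  b1 := b4
  b4 := b1
  e0 := exKn W hv (by norm_num)
  e2 := exKn W hv (by norm_num)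
  e4 := exKn W hu (by norm_num)

/-- windows -/
lemma win2 (W : W6 G R x t) {w : V} (hx : w ≠ x) (hD : w ∉ D G R x) {i j : ℕ} (hi : i < 6)
    (hj : j < 6) (h : (i + 3) % 6 = j) (a1 : G.Adj w (t i)) (a2 : G.Adj w (t j)) : False := by
  obtain ⟨m, hm, hw⟩ := W.win w hx hD
  have h1 := hw i hi a1
  have h2 := hw j hj a2
  omega

lemma nD (hu : u ∈ U G R x) : u ∉ D G R x := fun h => (mU hu).2.2 (Finset.mem_filter.1 h).2

/-- the main case: `u ~ t2, t3` and `v ~ t0, t5` -/
lemma main (W : W6 G R x t) (c10 : G.Adj (t 1) (t 0)) (c12 : G.Adj (t 1) (t 2))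
    (c43 : G.Adj (t 4) (t 3)) (c45 : G.Adj (t 4) (t 5)) (hu : u ∈ U G R x) (hv : v ∈ U G R x)
    (nuv : u ≠ v) (auv : ¬ G.Adj u v) (b1 : Bad G x u v (t 1)) (b4 : Bad G x u v (t 4))
    (u1 : ¬ G.Adj u (t 1)) (u4 : ¬ G.Adj u (t 4)) (u2 : G.Adj u (t 2)) (u3 : G.Adj u (t 3))
    (v0 : G.Adj v (t 0)) (v5 : G.Adj v (t 5)) : False := by
  have nu0 : ¬ G.Adj u (t 0) := fun h =>
    b1 (t 0) (x_t W (by norm_num)).symm h v0 (Or.inr c10.symm)
  have nu5 : ¬ G.Adj u (t 5) := fun h =>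
    b4 (t 5) (x_t W (by norm_num)).symm h v5 (Or.inr c45.symm)
  have nv2 : ¬ G.Adj v (t 2) := fun h =>
    b1 (t 2) (x_t W (by norm_num)).symm u2 h (Or.inr c12.symm)
  have nv3 : ¬ G.Adj v (t 3) := fun h =>
    b4 (t 3) (x_t W (by norm_num)).symm u3 h (Or.inr c43.symm)
  have kn : ∀ {w : V} {i : ℕ}, i < 6 → G.Adj w (t i) → Kn G x w (t i) (t i) := fun hi h =>
    ⟨(x_t W hi).symm, h, Or.inl rfl⟩
  -- crossing of `{0, 3}` and `{2, 5}`
  have cr1 : ∀ p p' h h', Kn G x u (t 0) p → Kn G x u (t 3) p' → Kn G x v (t 2) h →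
      Kn G x v (t 5) h' → t 0 = h ∨ t 0 = h' ∨ t 3 = h ∨ t 3 = h' ∨ p = t 2 ∨ p = t 5 ∨
        p' = t 2 ∨ p' = t 5 ∨ p = h ∨ p = h' ∨ p' = h ∨ p' = h' := by
    intro p p' h h' k1 k2 k3 k4
    exact cross (W.circ.cr 0 2 3 5 (by norm_num) (by norm_num) (by norm_num) (by norm_num))
      nuv auv (mU hu).2.1 (mU hv).2.1 (x_t W (by norm_num))
      (x_t W (by norm_num)) (x_t W (by norm_num)) (x_t W (by norm_num))
      (ne_t W (by norm_num) (by norm_num) (by norm_num))
      (ne_t W (by norm_num) (by norm_num) (by norm_num))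
      (ne_t W (by norm_num) (by norm_num) (by norm_num))
      (ne_t W (by norm_num) (by norm_num) (by norm_num))
      (ne_U W hu (by norm_num)) (ne_U W hu (by norm_num)) (ne_U W hv (by norm_num))
      (ne_U W hv (by norm_num)) k1 k2 k3 k4
  have cr2 : ∀ p p' h h', Kn G x v (t 0) p → Kn G x v (t 3) p' → Kn G x u (t 2) h →
      Kn G x u (t 5) h' → t 0 = h ∨ t 0 = h' ∨ t 3 = h ∨ t 3 = h' ∨ p = t 2 ∨ p = t 5 ∨
        p' = t 2 ∨ p' = t 5 ∨ p = h ∨ p = h' ∨ p' = h ∨ p' = h' := by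
    intro p p' h h' k1 k2 k3 k4
    exact cross (W.circ.cr 0 2 3 5 (by norm_num) (by norm_num) (by norm_num) (by norm_num))
      nuv.symm (fun e => auv e.symm) (mU hv).2.1 (mU hu).2.1 (x_t W (by norm_num))
      (x_t W (by norm_num)) (x_t W (by norm_num)) (x_t W (by norm_num))
      (ne_t W (by norm_num) (by norm_num) (by norm_num))
      (ne_t W (by norm_num) (by norm_num) (by norm_num))
      (ne_t W (by norm_num) (by norm_num) (by norm_num))
      (ne_t W (by norm_num) (by norm_num) (by norm_num))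
      (ne_U W hv (by norm_num)) (ne_U W hv (by norm_num)) (ne_U W hu (by norm_num))
      (ne_U W hu (by norm_num)) k1 k2 k3 k4
  have n02 := nadj W (i := 0) (j := 2) (by norm_num) (by norm_num) (by norm_num) (by norm_num)
    (by norm_num)
  have n35 := nadj W (i := 3) (j := 5) (by norm_num) (by norm_num) (by norm_num) (by norm_num)
    (by norm_num)
  -- the vertex `h`
  obtain ⟨h, hxne, hu', hv', h0, h2⟩ : ∃ h, h ≠ x ∧ G.Adj u h ∧ G.Adj v h ∧ G.Adj h (t 0) ∧
      G.Adj h (t 2) := by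
    obtain ⟨g0, k0⟩ := exKn W hu (i := 0) (by norm_num)
    obtain ⟨h2, k2⟩ := exKn W hv (i := 2) (by norm_num)
    have key : g0 = h2 := by
      rcases cr1 g0 (t 3) h2 (t 5) k0 (kn (by norm_num) u3) k2 (kn (by norm_num) v5) with
        e | e | e | e | e | e | e | e | e | e | e | e
      · exact (n02 (e ▸ k2.2.2)).elim
      · exact (ne_t W (by norm_num) (by norm_num) (by norm_num) e).elim
      · exact (nv3 (e ▸ k2.2.1)).elim
      · exact (ne_t W (by norm_num) (by norm_num) (by norm_num) e).elim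
      · rw [e] at k0
        rcases k0.2.2 with e' | e'
        · exact (n02 (Or.inl e'.symm)).elim
        · exact (n02 (Or.inr e'.symm)).elim
      · exact (nu5 (e ▸ k0.2.1)).elim
      · exact (ne_t W (by norm_num) (by norm_num) (by norm_num) e).elim
      · exact (ne_t W (by norm_num) (by norm_num) (by norm_num) e).elim
      · exact e
      · exact (nu5 (e ▸ k0.2.1)).elim
      · exact (nv3 (e ▸ k2.2.1)).elim
      · exact (ne_t W (by norm_num) (by norm_num) (by norm_num) e).elim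
    rw [← key] at k2
    refine ⟨g0, k0.1, k0.2.1, k2.2.1, ?_, ?_⟩
    · rcases k0.2.2 with e | e
      · exact absurd (e ▸ k0.2.1) nu0
      · exact e
    · rcases k2.2.2 with e | e
      · exact absurd (e ▸ k2.2.1) nv2
      · exact e
  obtain ⟨h', hxne', hu'', hv'', h3, h5⟩ : ∃ h, h ≠ x ∧ G.Adj u h ∧ G.Adj v h ∧
      G.Adj h (t 3) ∧ G.Adj h (t 5) := by
    obtain ⟨g5, k5⟩ := exKn W hu (i := 5) (by norm_num)
    obtain ⟨h3, k3⟩ := exKn W hv (i := 3) (by norm_num)
    have key : h3 = g5 := by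
      rcases cr2 (t 0) h3 (t 2) g5 (kn (by norm_num) v0) k3 (kn (by norm_num) u2) k5 with
        e | e | e | e | e | e | e | e | e | e | e | e
      · exact (ne_t W (by norm_num) (by norm_num) (by norm_num) e).elim
      · exact (nu0 (e ▸ k5.2.1)).elim
      · exact (ne_t W (by norm_num) (by norm_num) (by norm_num) e).elim
      · rw [← e] at k5
        exact (n35 k5.2.2).elim
      · exact (ne_t W (by norm_num) (by norm_num) (by norm_num) e).elim
      · exact (ne_t W (by norm_num) (by norm_num) (by norm_num) e).elim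
      · exact (nv2 (e ▸ k3.2.1)).elim
      · rw [e] at k3
        rcases k3.2.2 with e' | e'
        · exact (n35 (Or.inl e'.symm)).elim
        · exact (n35 (Or.inr e'.symm)).elim
      · exact (ne_t W (by norm_num) (by norm_num) (by norm_num) e).elim
      · exact (nu0 (e ▸ k5.2.1)).elim
      · exact (nv2 (e ▸ k3.2.1)).elim
      · exact e
    rw [key] at k3
    refine ⟨g5, k5.1, k5.2.1, k3.2.1, ?_, ?_⟩
    · rcases k3.2.2 with e | e
      · exact absurd (e ▸ k3.2.1) nv3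
      · exact e
    · rcases k5.2.2 with e | e
      · exact absurd (e ▸ k5.2.1) nu5
      · exact e
  have nh1 : ¬ G.Adj h (t 1) := fun e => b1 h hxne hu' hv' (Or.inr e)
  have nh4 : ¬ G.Adj h' (t 4) := fun e => b4 h' hxne' hu'' hv'' (Or.inr e)
  have hD : h ∉ D G R x := by
    intro hh
    obtain ⟨i, hi, rfl⟩ := W.circ.all h hh
    have e0 := W.adj i hi 0 (by norm_num) h0
    have e2 := W.adj i hi 2 (by norm_num) h2
    have : i = 1 := by omega
    rw [this] at hu'
    exact u1 hu'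
  have hD' : h' ∉ D G R x := by
    intro hh
    obtain ⟨i, hi, rfl⟩ := W.circ.all h' hh
    have e0 := W.adj i hi 3 (by norm_num) h3
    have e2 := W.adj i hi 5 (by norm_num) h5
    have : i = 4 := by omega
    rw [this] at hu''
    exact u4 hu''
  have iso1 := (W.iso h hxne hD 0 (by norm_num) h0 h2).2.2.2.2
  have iso2 := (W.iso h' hxne' hD' 3 (by norm_num) h3 h5).2.2.2.2
  -- counting
  have hsub : ((U G R x).erase h).erase h' ⊆
      ((CC G R (t 2) (t 3)).erase x) ∪ ((CC G R (t 5) (t 0)).erase x) := by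
    intro w hw
    have hwh' : w ≠ h' := (Finset.mem_erase.1 hw).1
    have hwh : w ≠ h := (Finset.mem_erase.1 (Finset.mem_erase.1 hw).2).1
    have hwU : w ∈ U G R x := (Finset.mem_erase.1 (Finset.mem_erase.1 hw).2).2
    have A : G.Adj w (t 0) ∨ G.Adj w (t 2) := by
      rcases iso1 w hwU hwh with e | e | e
      · exact Or.inl e
      · exact Or.inr e
      · exact absurd e.2 nh1
    have B : G.Adj w (t 3) ∨ G.Adj w (t 5) := by
      rcases iso2 w hwU hwh' with e | e | e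
      · exact Or.inl e
      · exact Or.inr e
      · exact absurd e.2 nh4
    have hwx := (mU hwU).2.1
    rw [Finset.mem_union, Finset.mem_erase, Finset.mem_erase]
    rcases A with A | A <;> rcases B with B | B
    · exact (win2 W hwx (nD hwU) (i := 0) (j := 3) (by norm_num) (by norm_num) (by norm_num)
        A B).elim
    · right
      exact ⟨hwx, Finset.mem_filter.2 ⟨(mU hwU).1, B.symm, Or.inr A.symm⟩⟩
    · left
      exact ⟨hwx, Finset.mem_filter.2 ⟨(mU hwU).1, A.symm, Or.inr B.symm⟩⟩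
    · exact (win2 W hwx (nD hwU) (i := 2) (j := 5) (by norm_num) (by norm_num) (by norm_num)
        A B).elim
  have hDc : (D G R x).card = 6 := by
    have h1 : (Finset.range 6).image t = D G R x := by
      ext z
      rw [Finset.mem_image]
      constructor
      · rintro ⟨i, hi, rfl⟩
        exact W.circ.mem i (Finset.mem_range.1 hi)
      · intro hz
        obtain ⟨i, hi, rfl⟩ := W.circ.all z hz
        exact ⟨i, Finset.mem_range.2 hi, rfl⟩
    rw [← h1, Finset.card_image_of_injOn]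
    · simp
    · intro i hi j hj hij
      exact W.circ.inj i (by simpa using hi) j (by simpa using hj) hij
  have hR : R.card ≤ (D G R x).card + (U G R x).card + (if x ∈ R then 1 else 0) := by
    have h1 : R ⊆ D G R x ∪ U G R x ∪ (if x ∈ R then {x} else ∅) := by
      intro z hz
      by_cases h1 : G.Adj x z
      · exact Finset.mem_union_left _ (Finset.mem_union_left _ (Finset.mem_filter.2 ⟨hz, h1⟩))
      · by_cases h2 : z = x
        · subst h2
          rw [if_pos hz]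
          exact Finset.mem_union_right _ (by simp)
        · exact Finset.mem_union_left _ (Finset.mem_union_right _
            (Finset.mem_filter.2 ⟨hz, h2, h1⟩))
    refine (Finset.card_le_card h1).trans ((Finset.card_union_le _ _).trans ?_)
    have h2 := Finset.card_union_le (D G R x) (U G R x)
    split_ifs <;> simp <;> omega
  have hc1 := W.s6.cc (t 2) (t 3) (ne_t W (by norm_num) (by norm_num) (by norm_num))
  have hc2 := W.s6.cc (t 5) (t 0) (ne_t W (by norm_num) (by norm_num) (by norm_num))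
  have hle := (Finset.card_le_card hsub).trans (Finset.card_union_le _ _)
  have he1 := Finset.pred_card_le_card_erase (s := U G R x) (a := h)
  have he2 := Finset.pred_card_le_card_erase (s := (U G R x).erase h) (a := h')
  have he3 : ((CC G R (t 2) (t 3)).erase x).card ≤ 3 - (if x ∈ R then 1 else 0) := by
    split_ifs with hx
    · have : x ∈ CC G R (t 2) (t 3) := Finset.mem_filter.2 ⟨hx, (mD W (by norm_num)).2.symm,
        Or.inr (mD W (by norm_num)).2.symm⟩
      rw [Finset.card_erase_of_mem this]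
      omega
    · exact (Finset.card_le_card (Finset.erase_subset _ _)).trans hc1
  have he4 : ((CC G R (t 5) (t 0)).erase x).card ≤ 3 - (if x ∈ R then 1 else 0) := by
    split_ifs with hx
    · have : x ∈ CC G R (t 5) (t 0) := Finset.mem_filter.2 ⟨hx, (mD W (by norm_num)).2.symm,
        Or.inr (mD W (by norm_num)).2.symm⟩
      rw [Finset.card_erase_of_mem this]
      omega
    · exact (Finset.card_le_card (Finset.erase_subset _ _)).trans hc2
  have h16 := W.s6.card
  rw [hDc, h16] at hR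
  split_ifs at hR he3 he4 <;> omega

end

/-- K6A -/
theorem k6a : K6AStmt := by
  intro V G R x t u v K b1 b4
  have W := K.toW6
  have b1' := Bad.sy b1
  have b4' := Bad.sy b4
  have avu : ¬ G.Adj v u := fun e => K.auv e.symm
  have S1 := sit1 W K.mu K.mv K.nuv K.auv b1 b4
  have S4 := sit4 W K.mu K.mv K.nuv K.auv b1 b4
  have T1 := sit1 W K.mv K.mu K.nuv.symm avu b1' b4'
  have T4 := sit4 W K.mv K.mu K.nuv.symm avu b1' b4'
  have n10 : t 1 ≠ t 0 := ne_t W (by norm_num) (by norm_num) (by norm_num)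
  have n12 : t 1 ≠ t 2 := ne_t W (by norm_num) (by norm_num) (by norm_num)
  have n43 : t 4 ≠ t 3 := ne_t W (by norm_num) (by norm_num) (by norm_num)
  have n45 : t 4 ≠ t 5 := ne_t W (by norm_num) (by norm_num) (by norm_num)
  have x1 : t 1 ≠ x := (x_t W (by norm_num)).symm
  have x4 : t 4 ≠ x := (x_t W (by norm_num)).symm
  have u1 := S1.core0 x1 n10 n12
  have u4 := S4.core0 x4 n43 n45
  have v1 := T1.core0 x1 n10 n12
  have v4 := T4.core0 x4 n43 n45
  obtain ⟨p, hp⟩ := exKn W K.mu (i := 1) (by norm_num)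
  obtain ⟨p', hp'⟩ := exKn W K.mu (i := 4) (by norm_num)
  obtain ⟨q, hq⟩ := exKn W K.mv (i := 1) (by norm_num)
  obtain ⟨q', hq'⟩ := exKn W K.mv (i := 4) (by norm_num)
  have P := S1.core1 v1 hp
  have P' := S4.core1 v4 hp'
  have Q := T1.core1 u1 hq
  have Q' := T4.core1 u4 hq'
  have npq : p ≠ q := fun e => b1 p hp.1 hp.2.1 (e ▸ hq.2.1) hp.2.2
  have npq' : p' ≠ q' := fun e => b4 p' hp'.1 hp'.2.1 (e ▸ hq'.2.1) hp'.2.2
  have wu := fun {i j : ℕ} (hi : i < 6) (hj : j < 6) (h : (i + 3) % 6 = j) =>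
    win2 W (mU K.mu).2.1 (nD K.mu) hi hj h
  have wv := fun {i j : ℕ} (hi : i < 6) (hj : j < 6) (h : (i + 3) % 6 = j) =>
    win2 W (mU K.mv).2.1 (nD K.mv) hi hj h
  have up := hp.2.1
  have up' := hp'.2.1
  have vq := hq.2.1
  have vq' := hq'.2.1
  rcases P with rfl | rfl
  · rcases Q with rfl | rfl
    · exact npq rfl
    · rcases P' with rfl | rfl
      · exact wu (i := 0) (j := 3) (by norm_num) (by norm_num) (by norm_num) up up'
      · rcases Q' with rfl | rfl
        · exact main W K.c10 K.c12 K.c43 K.c45 K.mv K.mu K.nuv.symm avu b1' b4' v1 v4 vq vq' up up'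
        · exact npq' rfl
  · rcases Q with rfl | rfl
    · rcases P' with rfl | rfl
      · rcases Q' with rfl | rfl
        · exact npq' rfl
        · exact main W K.c10 K.c12 K.c43 K.c45 K.mu K.mv K.nuv K.auv b1 b4 u1 u4 up up' vq vq'
      · exact wu (i := 2) (j := 5) (by norm_num) (by norm_num) (by norm_num) up up'
    · exact npq rfl

end Pool.Agent.H4.RCQ.K6A
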