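import Pool.Agent.H6.RCQ.Stmts3

/-!
# Project RCQ: module T8A
-/

set_option autoImplicit false

namespace Pool.Agent.H4.RCQ.T8A

open Pool.Agent.H39.RC Pool.Agent.H6.RCQ
open Classical

variable {V : Type} {G : SimpleGraph V} {R : Finset V} {x c c' : V}

lemma mD {v : V} : v ∈ D G R x ↔ v ∈ R ∧ G.Adj x v := Finset.mem_filter
lemma mU {v : V} : v ∈ U G R x ↔ v ∈ R ∧ v ≠ x ∧ ¬ G.Adj x v := Finset.mem_filter
lemma mCN {v : V} : v ∈ CN G R x c ↔ v ∈ R ∧ G.Adj x v ∧ G.Adj c v := Finset.mem_filter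
lemma mCC {v : V} : v ∈ CC G R x c ↔ v ∈ R ∧ G.Adj x v ∧ (v = c ∨ G.Adj c v) := Finset.mem_filter
lemma mII {v : V} : v ∈ II G R x c ↔ v ∈ R ∧ v ≠ x ∧ v ≠ c ∧ ¬ G.Adj x v ∧ ¬ G.Adj c v :=
  Finset.mem_filter

lemma cc_card (hc : c ∈ R) (hxc : G.Adj x c) : (CC G R x c).card = (CN G R x c).card + 1 := by
  have h1 : CC G R x c = insert c (CN G R x c) := by
    ext v
    rw [Finset.mem_insert, mCC, mCN]
    constructor
    · rintro ⟨h1, h2, rfl | h3⟩
      · exact Or.inl rfl
      · exact Or.inr ⟨h1, h2, h3⟩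
    · rintro (rfl | ⟨h1, h2, h3⟩)
      · exact ⟨hc, hxc, Or.inl rfl⟩
      · exact ⟨h1, h2, Or.inr h3⟩
  rw [h1, Finset.card_insert_of_notMem]
  rw [mCN]
  exact fun h => G.loopless.irrefl c h.2.2

lemma t8_disj (h : T8 G R x c c') : Disjoint (CC G R x c) (CC G R x c') := by
  have h1 := cc_card h.mc h.ac
  have h2 := cc_card h.mc' h.ac'
  rw [h.n] at h1
  rw [h.n'] at h2
  have h3 : D G R x ⊆ CC G R x c ∪ CC G R x c' := fun s hs => Finset.mem_union.2 (h.cov s hs)
  have h4 := Finset.card_le_card h3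
  have h5 := Finset.card_union_add_card_inter (CC G R x c) (CC G R x c')
  rw [h.dx] at h4
  rw [Finset.disjoint_iff_inter_eq_empty, ← Finset.card_eq_zero]
  omega

lemma t8_facts (h : T8 G R x c c') :
    (∀ a ∈ CN G R x c, a ≠ c' ∧ ¬ G.Adj c' a) ∧ ¬ G.Adj c c' ∧
    (∀ s ∈ D G R x, s = c ∨ s = c' ∨ s ∈ CN G R x c ∨ s ∈ CN G R x c') := by
  have hd := t8_disj h
  rw [Finset.disjoint_left] at hd
  have e1 : ∀ v, v ∈ R → G.Adj x v → (v = c ∨ G.Adj c v) → v ≠ c' ∧ ¬ G.Adj c' v := by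
    intro v h1 h2 h3
    have h4 := hd (mCC.2 ⟨h1, h2, h3⟩)
    rw [mCC] at h4
    exact ⟨fun e => h4 ⟨h1, h2, Or.inl e⟩, fun e => h4 ⟨h1, h2, Or.inr e⟩⟩
  refine ⟨?_, ?_, ?_⟩
  · intro a ha
    rw [mCN] at ha
    exact e1 a ha.1 ha.2.1 (Or.inr ha.2.2)
  · intro e
    exact (e1 c h.mc h.ac (Or.inl rfl)).2 e.symm
  · intro s hs
    have h1 := mD.1 hs
    rcases h.cov s hs with h2 | h2 <;> rw [mCC] at h2
    · rcases h2.2.2 with h3 | h3
      · exact Or.inl h3
      · exact Or.inr (Or.inr (Or.inl (mCN.2 ⟨h1.1, h1.2, h3⟩)))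
    · rcases h2.2.2 with h3 | h3
      · exact Or.inr (Or.inl h3)
      · exact Or.inr (Or.inr (Or.inr (mCN.2 ⟨h1.1, h1.2, h3⟩)))

lemma pol_xc (hxc : G.Adj x c) : Pol G {x} {c} (CN G R x c) where
  cP := con_single x
  cQ := con_single c
  dis := by
    rw [Set.disjoint_singleton]
    exact hxc.ne
  oP := by
    intro s hs e
    rw [Set.mem_singleton_iff] at e
    rw [e] at hs
    exact G.loopless.irrefl x (mCN.1 hs).2.1
  oQ := by
    intro s hs e
    rw [Set.mem_singleton_iff] at e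
    rw [e] at hs
    exact G.loopless.irrefl c (mCN.1 hs).2.2
  aP := fun s hs => ⟨x, rfl, (mCN.1 hs).2.1⟩
  aQ := fun s hs => ⟨c, rfl, (mCN.1 hs).2.2⟩

/-- the other side -/
def KK (G : SimpleGraph V) (R : Finset V) (x c' : V) : Set V :=
  {w | w ∈ U G R x ∨ w = c' ∨ w ∈ CN G R x c'}

lemma kk_con (h : T8 G R x c c') {b2 : V} (hb2 : b2 ∈ CN G R x c')
    (hu : ∀ u ∈ U G R x, G.Adj u c' ∨ G.Adj u b2) : Con G (KK G R x c') := by
  have mc' : c' ∈ KK G R x c' := Or.inr (Or.inl rfl)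
  have mb2 : b2 ∈ KK G R x c' := Or.inr (Or.inr hb2)
  refine SimpleGraph.Connected.mk ?_ (nonempty := ⟨⟨c', mc'⟩⟩)
  have e1 : (G.induce (KK G R x c')).Reachable ⟨b2, mb2⟩ ⟨c', mc'⟩ :=
    SimpleGraph.Adj.reachable (by simpa using (mCN.1 hb2).2.2.symm)
  have key : ∀ v : KK G R x c', (G.induce (KK G R x c')).Reachable v ⟨c', mc'⟩ := by
    rintro ⟨v, hv⟩
    rcases hv with hv' | rfl | hv'
    · rcases hu v hv' with e | e
      · exact SimpleGraph.Adj.reachable (by simpa using e)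
      · refine SimpleGraph.Reachable.trans (v := ⟨b2, mb2⟩) ?_ e1
        exact SimpleGraph.Adj.reachable (by simpa using e)
    · exact SimpleGraph.Reachable.refl _
    · exact SimpleGraph.Adj.reachable (by simpa using (mCN.1 hv').2.2.symm)
  intro u v
  exact (key u).trans (key v).symm

lemma kk_out (h : T8 G R x c c') : ∀ w ∈ KK G R x c', w ∉ XX {x} {c} (CN G R x c) := by
  obtain ⟨f1, f2, f3⟩ := t8_facts h
  rintro w (hw | rfl | hw)
  · rw [mU] at hw
    rintro ((e | e) | e)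
    · exact hw.2.1 e
    · rw [Set.mem_singleton_iff.1 e] at hw
      exact hw.2.2 h.ac
    · exact hw.2.2 (mCN.1 e).2.1
  · rintro ((e | e) | e)
    · exact h.ac'.ne e.symm
    · exact h.ne e.symm
    · exact (f1 w e).1 rfl
  · rw [mCN] at hw
    rintro ((e | e) | e)
    · exact hw.2.1.ne e.symm
    · rw [Set.mem_singleton_iff.1 e] at hw
      exact f2 hw.2.2.symm
    · exact (f1 w e).2 hw.2.2

/-- transfer of links inside a connected set -/
lemma lnk_move {X K : Set V} (hK : Con G K) (hX : ∀ w ∈ K, w ∉ X) {v w a : V} (hv : v ∈ K)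
    (hw : w ∈ K) (h : Lnk G X v a) : Lnk G X w a := by
  obtain ⟨Z, h1, h2, h3, z, hz, hza⟩ := h
  refine ⟨K ∪ Z, Or.inl hw, hK.union h2 hv h1, ?_, z, Or.inr hz, hza⟩
  rintro y (hy | hy)
  · exact hX y hy
  · exact h3 y hy

/-- the count of `U` -/
lemma u_card (h : T8 G R x c c') : 16 ≤ 8 + (U G R x).card + (if x ∈ R then 1 else 0) := by
  have h1 : R ⊆ D G R x ∪ U G R x ∪ (if x ∈ R then {x} else ∅) := by
    intro z hz
    by_cases h1 : G.Adj x z
    · exact Finset.mem_union_left _ (Finset.mem_union_left _ (mD.2 ⟨hz, h1⟩))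
    · by_cases h2 : z = x
      · subst h2
        rw [if_pos hz]
        exact Finset.mem_union_right _ (by simp)
      · exact Finset.mem_union_left _ (Finset.mem_union_right _ (mU.2 ⟨hz, h2, h1⟩))
  have h2 := (Finset.card_le_card h1).trans (Finset.card_union_le _ _)
  have h3 := Finset.card_union_le (D G R x) (U G R x)
  have h4 := h.dx
  have h5 := h.l.card
  split_ifs at h2 ⊢ <;> simp at h2 <;> omega

/-- final form, once the unattached element is named `a3` -/
lemma final (h : T8 G R x c c') {a1 a2 a3 b2 : V} (hb2 : b2 ∈ CN G R x c')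
    (hub : ∀ u ∈ U G R x, G.Adj u c' ∨ G.Adj u b2)
    (hCN : CN G R x c = {a1, a2, a3}) (h12 : a1 ≠ a2) (h13 : a1 ≠ a3) (h23 : a2 ≠ a3)
    (hI : (II G R x c).Nonempty)
    (hu : ∀ u ∈ II G R x c, G.Adj u a2 ∧
      (Lnk G (XX {x} {c} (CN G R x c)) u a1 ∨ G.Adj a2 a1) ∧
      (Lnk G (XX {x} {c} (CN G R x c)) u a3 ∨ G.Adj a2 a3))
    (hn3 : ¬ Lnk G (XX {x} {c} (CN G R x c)) c' a3) :
    ∃ a1 a2 a3, CN G R x c = {a1, a2, a3} ∧ a1 ≠ a2 ∧ a1 ≠ a3 ∧ a2 ≠ a3 ∧ G.Adj a2 a3 ∧
      (∀ u ∈ U G R x, G.Adj u c ∨ G.Adj u a2) ∧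
      (∀ w, (w ∈ U G R x ∨ w = c' ∨ w ∈ CN G R x c') →
        ¬ Lnk G (XX {x} {c} (CN G R x c)) w a3) ∧
      ((G.Adj a2 a1 ∧ ∀ w, (w ∈ U G R x ∨ w = c' ∨ w ∈ CN G R x c') →
          ¬ Lnk G (XX {x} {c} (CN G R x c)) w a1) ∨
        ¬ G.Adj a2 a1) := by
  have hK := kk_con h hb2 hub
  have hX := kk_out h
  have mc' : c' ∈ KK G R x c' := Or.inr (Or.inl rfl)
  have hIU : ∀ u ∈ II G R x c, u ∈ U G R x := fun u hu =>
    mU.2 ⟨(mII.1 hu).1, (mII.1 hu).2.1, (mII.1 hu).2.2.2.1⟩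
  have hUI : ∀ u ∈ U G R x, ¬ G.Adj c u → u ∈ II G R x c := by
    intro u hu hn
    rw [mU] at hu
    refine mII.2 ⟨hu.1, hu.2.1, ?_, hu.2.2, hn⟩
    intro e
    rw [e] at hu
    exact hu.2.2 h.ac
  have N : ∀ a, ¬ Lnk G (XX {x} {c} (CN G R x c)) c' a → ∀ w ∈ KK G R x c',
      ¬ Lnk G (XX {x} {c} (CN G R x c)) w a := fun a hn w hw hl =>
    hn (lnk_move hK hX hw mc' hl)
  obtain ⟨u0, hu0⟩ := hI
  have a23 : G.Adj a2 a3 := by
    rcases (hu u0 hu0).2.2 with e | e
    · exact absurd e (N a3 hn3 u0 (Or.inl (hIU u0 hu0)))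
    · exact e
  refine ⟨a1, a2, a3, hCN, h12, h13, h23, a23, ?_, fun w hw => N a3 hn3 w hw, ?_⟩
  · intro u hu'
    by_cases e : G.Adj c u
    · exact Or.inl e.symm
    · exact Or.inr (hu u (hUI u hu' e)).1
  · by_cases hl : Lnk G (XX {x} {c} (CN G R x c)) c' a1
    · right
      intro a21
      -- a `K₅` minor
      obtain ⟨Z, z1, z2, z3, z, hz, hza⟩ := hl
      have m1 : a1 ∈ CN G R x c := by rw [hCN]; simp
      have m2 : a2 ∈ CN G R x c := by rw [hCN]; simp
      have m3 : a3 ∈ CN G R x c := by rw [hCN]; simp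
      have m1' := mCN.1 m1
      have m2' := mCN.1 m2
      have m3' := mCN.1 m3
      -- some `u ∈ U` is adjacent to `c`
      obtain ⟨u, huU, hcu⟩ : ∃ u ∈ U G R x, G.Adj c u := by
        by_contra hcon
        push Not at hcon
        have hUsub : U G R x ⊆ II G R x c := fun u hu => hUI u hu (hcon u hu)
        have h1 := Finset.card_le_card hUsub
        have h2 : II G R x c ∪ ({c, a1, a3} ∪ (if x ∈ R then {x} else ∅)) ⊆ D G R a2 := by
          intro v hv
          rw [Finset.mem_union, Finset.mem_union] at hv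
          rcases hv with hv | hv | hv
          · exact mD.2 ⟨(mII.1 hv).1, (hu v hv).1.symm⟩
          · simp only [Finset.mem_insert, Finset.mem_singleton] at hv
            rcases hv with rfl | rfl | rfl
            · exact mD.2 ⟨h.mc, m2'.2.2.symm⟩
            · exact mD.2 ⟨m1'.1, a21⟩
            · exact mD.2 ⟨m3'.1, a23⟩
          · split_ifs at hv with hx
            · rw [Finset.mem_singleton] at hv
              rw [hv]
              exact mD.2 ⟨hx, m2'.2.1.symm⟩
            · simp at hv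
        have h3 := (Finset.card_le_card h2).trans (h.deg a2)
        have ca1 : c ≠ a1 := m1'.2.2.ne
        have ca3 : c ≠ a3 := m3'.2.2.ne
        have xc : x ≠ c := h.ac.ne
        have xa1 : x ≠ a1 := m1'.2.1.ne
        have xa3 : x ≠ a3 := m3'.2.1.ne
        have h4 : ({c, a1, a3} : Finset V).card = 3 := by
          rw [Finset.card_insert_of_notMem, Finset.card_insert_of_notMem,
            Finset.card_singleton] <;> simp [*]
        have h5 : (({c, a1, a3} : Finset V) ∪ (if x ∈ R then {x} else ∅)).card =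
            3 + (if x ∈ R then 1 else 0) := by
          rw [Finset.card_union_of_disjoint, h4]
          · split_ifs <;> simp
          · split_ifs
            · rw [Finset.disjoint_singleton_right]
              simp [*]
            · simp
        have h6 : Disjoint (II G R x c) (({c, a1, a3} : Finset V) ∪ (if x ∈ R then {x} else ∅)) := by
          rw [Finset.disjoint_left]
          intro v hv hv'
          rw [mII] at hv
          rw [Finset.mem_union] at hv'
          rcases hv' with hv' | hv'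
          · simp only [Finset.mem_insert, Finset.mem_singleton] at hv'
            rcases hv' with rfl | rfl | rfl
            · exact hv.2.2.1 rfl
            · exact hv.2.2.2.1 m1'.2.1
            · exact hv.2.2.2.1 m3'.2.1
          · split_ifs at hv' with hx
            · exact hv.2.1 (Finset.mem_singleton.1 hv')
            · simp at hv'
        rw [Finset.card_union_of_disjoint h6, h5] at h3
        have h7 := u_card h
        split_ifs at h3 h7 <;> omega
      have hout : ∀ w ∈ KK G R x c' ∪ Z, w ∉ XX {x} {c} (CN G R x c) := by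
        rintro w (hw | hw)
        · exact hX w hw
        · exact z3 w hw
      have hcon : Con G (KK G R x c' ∪ Z) := hK.union z2 mc' z1
      have dj : ∀ v, v ∈ XX {x} {c} (CN G R x c) → Disjoint ({v} : Set V) (KK G R x c' ∪ Z) := by
        intro v hv
        rw [Set.disjoint_singleton_left]
        exact fun hw => hout v hw hv
      have ds : ∀ v w : V, v ≠ w → Disjoint ({v} : Set V) {w} := fun v w hvw =>
        Set.disjoint_singleton.2 hvw
      have X0 : x ∈ XX {x} {c} (CN G R x c) := Or.inl (Or.inl rfl)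
      have Xc : c ∈ XX {x} {c} (CN G R x c) := Or.inl (Or.inr rfl)
      have X1 : a1 ∈ XX {x} {c} (CN G R x c) := Or.inr m1
      have X2 : a2 ∈ XX {x} {c} (CN G R x c) := Or.inr m2
      refine h.l.lf.pg.k5 (hasMinor_k5 ![{x}, {c}, {a1}, {a2}, KK G R x c' ∪ Z] ?_ ?_ ?_)
      · intro i
        fin_cases i
        · exact con_single _
        · exact con_single _
        · exact con_single _
        · exact con_single _
        · exact hcon
      · intro i j hij
        fin_cases i <;> fin_cases j <;> first | (exfalso; revert hij; decide) | skip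
        · exact ds _ _ h.ac.ne
        · exact ds _ _ m1'.2.1.ne
        · exact ds _ _ m2'.2.1.ne
        · exact dj _ X0
        · exact ds _ _ m1'.2.2.ne
        · exact ds _ _ m2'.2.2.ne
        · exact dj _ Xc
        · exact ds _ _ h12
        · exact dj _ X1
        · exact dj _ X2
      · intro i j hij
        fin_cases i <;> fin_cases j <;> first | (exfalso; revert hij; decide) | skip
        · exact ⟨x, rfl, c, rfl, h.ac⟩
        · exact ⟨x, rfl, a1, rfl, m1'.2.1⟩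
        · exact ⟨x, rfl, a2, rfl, m2'.2.1⟩
        · exact ⟨x, rfl, c', Or.inl mc', h.ac'⟩
        · exact ⟨c, rfl, a1, rfl, m1'.2.2⟩
        · exact ⟨c, rfl, a2, rfl, m2'.2.2⟩
        · exact ⟨c, rfl, u, Or.inl (Or.inl huU), hcu⟩
        · exact ⟨a1, rfl, a2, rfl, a21.symm⟩
        · exact ⟨a1, rfl, z, Or.inr hz, hza.symm⟩
        · exact ⟨a2, rfl, u0, Or.inl (Or.inl (hIU u0 hu0)), (hu u0 hu0).1.symm⟩
    · left
      refine ⟨?_, fun w hw => N a1 hl w hw⟩
      rcases (hu u0 hu0).2.1 with e | e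
      · exact absurd e (N a1 hl u0 (Or.inl (hIU u0 hu0)))
      · exact e

lemma ii3 (hRC : RCStmt) (h : T8 G R x c c') : 3 ≤ (II G R x c).card := by
  have h1 := (hRC V G R x c h.ac.ne).1 h.ac
  rw [h.l.card, h.n, h.dx] at h1
  have h2 := h.deg c
  omega

lemma t8_symm (h : T8 G R x c c') : T8 G R x c' c :=
  ⟨h.l, h.deg, h.dx, h.ac', h.ac, h.mc', h.mc, h.ne.symm, h.n', h.n, fun s hs =>
    (h.cov s hs).symm⟩

/-- T8A -/
theorem t8a (hR3A : R3AStmt) (hRC : RCStmt) (hPE1 : PE1Stmt) : T8AStmt := by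
  intro V G R x c c' h
  obtain ⟨f1, f2, f3⟩ := t8_facts h
  have hI := ii3 hRC h
  have hI' := ii3 hRC (t8_symm h)
  refine ⟨hI, f1, f2, f3, ?_⟩
  have hIn : (II G R x c).Nonempty := Finset.card_pos.1 (by omega)
  have hIn' : (II G R x c').Nonempty := Finset.card_pos.1 (by omega)
  obtain ⟨a1, a2, a3, hCN, h12, h13, h23, -, -, -, hu⟩ := hR3A V G R x c h.l.lf h.ac h.n hIn
  obtain ⟨b1, b2, b3, hCN', -, -, -, -, -, -, hu'⟩ := hR3A V G R x c' h.l.lf h.ac' h.n' hIn'
  have hb2 : b2 ∈ CN G R x c' := by rw [hCN']; simp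
  have hub : ∀ u ∈ U G R x, G.Adj u c' ∨ G.Adj u b2 := by
    intro u huU
    by_cases e : G.Adj c' u
    · exact Or.inl e.symm
    · right
      rw [mU] at huU
      refine (hu' u (mII.2 ⟨huU.1, huU.2.1, ?_, huU.2.2, e⟩)).1
      intro e'
      rw [e'] at huU
      exact huU.2.2 h.ac'
  by_cases hl : Lnk G (XX {x} {c} (CN G R x c)) c' a3
  · have hl1 : ¬ Lnk G (XX {x} {c} (CN G R x c)) c' a1 := by
      intro hl1
      obtain ⟨u0, hu0⟩ := hIn
      have hK := kk_con h hb2 hub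
      have hX := kk_out h
      have mc' : c' ∈ KK G R x c' := Or.inr (Or.inl rfl)
      have mu0 : u0 ∈ KK G R x c' :=
        Or.inl (mU.2 ⟨(mII.1 hu0).1, (mII.1 hu0).2.1, (mII.1 hu0).2.2.2.1⟩)
      have hl2 : Lnk G (XX {x} {c} (CN G R x c)) c' a2 :=
        lnk_move hK hX mu0 mc' (lnk_adj (hX u0 mu0) (hu u0 hu0).1)
      exact hPE1 V G {x} {c} (CN G R x c) h.l.lf.pg (pol_xc h.ac) c' a1 a2 a3
        (by rw [hCN]; simp) (by rw [hCN]; simp) (by rw [hCN]; simp) h12 h13 h23 hl1 hl2 hl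
    refine final h (a1 := a3) (a2 := a2) (a3 := a1) hb2 hub ?_ h23.symm h13.symm h12.symm hIn ?_ hl1
    · rw [hCN]
      ext v
      simp only [Finset.mem_insert, Finset.mem_singleton]
      tauto
    · intro u hu1
      exact ⟨(hu u hu1).1, (hu u hu1).2.2, (hu u hu1).2.1⟩
  · exact final h hb2 hub hCN h12 h13 h23 hIn hu hl

end Pool.Agent.H4.RCQ.T8A
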